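import Pool.Agent.H67.ES.MdlSt
import Pool.Agent.H67.ES.MsDef
import Pool.Agent.H67.ES.FacRd
import Pool.Agent.H67.KH.Val

/-! # GC.EndB : if all points of a factorisation are integral then the model point is bounded (labels only) -/

namespace GB

open ES H68.BB Polynomial H71.ES
open H67.KH (mem_of_root rd_of_mem)

variable {K : Type} [Field K] [IsAlgClosed K] [CharZero K] {π : Place K (Om K)}

private theorem eb_sq {A B u : Om K} (hA : A ∈ π.V) (hB : B ∈ π.V) (h : u ^ 2 - A * u + B = 0) : u ∈ π.V := by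
  have hp : ∀ i, (X ^ 2 - C A * X + C B : (Om K)[X]).coeff i ∈ π.V := by
    intro i
    rw [coeff_add, coeff_sub, coeff_X_pow, coeff_C_mul, coeff_X, coeff_C]
    refine add_mem (sub_mem ?_ (mul_mem hA ?_)) ?_
    · split_ifs
      · exact π.V.one_mem
      · exact π.V.zero_mem
    · split_ifs
      · exact π.V.one_mem
      · exact π.V.zero_mem
    · split_ifs
      · exact hB
      · exact π.V.zero_mem
  have hm : (X ^ 2 - C A * X + C B : (Om K)[X]).Monic := by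
    monicity!
  refine mem_of_root hp hm ?_
  rw [IsRoot, eval_add, eval_sub, eval_pow, eval_mul, eval_X, eval_C, eval_C]
  exact h

private theorem eb_rt {u : Om K} (h : u ^ 2 ∈ π.V) : u ∈ π.V :=
  eb_sq (A := 0) (B := -u ^ 2) π.V.zero_mem (by
    have := neg_mem h
    exact this) (by ring)

private theorem eb_vtx {g : Vtx (Om K)} (h1 : g.ab.1 ∈ π.V) (h2 : g.w ^ 2 + g.v ^ 2 ∈ π.V) (h3 : g.y ∈ π.V) :
    ∃ u : Vtx K, RdV π g u := by
  have h1' : (g.w * g.v) ^ 2 ∈ π.V := h1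
  have hw : g.w ∈ π.V := eb_rt (eb_sq h2 h1' (by ring))
  have hv : g.v ∈ π.V := eb_rt (eb_sq h2 h1' (by ring))
  obtain ⟨w, hw'⟩ := rd_of_mem hw
  obtain ⟨v, hv'⟩ := rd_of_mem hv
  obtain ⟨y, hy'⟩ := rd_of_mem h3
  exact ⟨⟨w, v, y⟩, ⟨hw', hv', hy'⟩⟩

private theorem eb_list {f : List (Vtx (Om K))} (hint : ∀ g ∈ f, g.ab.1 ∈ π.V ∧ g.w ^ 2 + g.v ^ 2 ∈ π.V ∧ g.y ∈ π.V) :
    ∃ f0 : List (Vtx K), List.Forall₂ (RdV π) f f0 ∧ RdMt π (XX f) (XX f0) := by
  induction f with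
  | nil => exact ⟨[], List.Forall₂.nil, RdMt.one⟩
  | cons g f ih =>
    obtain ⟨f0, h1, h2⟩ := ih fun g' hg' => hint g' (List.mem_cons_of_mem _ hg')
    obtain ⟨a1, a2, a3⟩ := hint g List.mem_cons_self
    obtain ⟨u, hu⟩ := eb_vtx a1 a2 a3
    exact ⟨u :: f0, List.Forall₂.cons hu h1, RdMt.sand hu h2⟩

private theorem eb_sq1 (k : ℕ) : ((-1 : Om K) ^ k) * ((-1 : Om K) ^ k) = 1 := by
  rw [← mul_pow]; simp

theorem end_b {k : ℕ} {m : Mdl (Om K)} (hq : ∀ i, m.q.coeff i ∈ π.V) {f : List (Vtx (Om K))} {c : Om K} (hc : c ≠ 0)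
    (hX : XX f = scale c (mdlM k m)) (hy : (tot f).y = m.y) {z : K}
    (hx : algebraMap K (Om K) z * (tot f).w ^ 2 + algebraMap K (Om K) z ^ 2 * (tot f).v ^ 2 = m.x)
    (hint : ∀ g ∈ f, g.ab.1 ∈ π.V ∧ g.w ^ 2 + g.v ^ 2 ∈ π.V ∧ g.y ∈ π.V) : Bdd π m := by
  obtain ⟨f0, hf0, hM⟩ := eb_list hint
  have hT := tot_rd hf0
  have hz : algebraMap K (Om K) z ∈ π.V := (π.const z).choose
  have he : ((-1 : Om K) ^ k) ∈ π.V := pow_mem (neg_mem π.V.one_mem) k
  have hs1 := eb_sq1 (K := K) k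
  have e00 : XX f 0 0 = C ((-1 : Om K) ^ k) * (expand (Om K) 2 m.t + X * expand (Om K) 2 m.s) := by
    rw [hX, expand_eq_comp_X_pow, expand_eq_comp_X_pow]
    show mdlM k m 0 0 = _
    simp [mdlM]
  have e01 : XX f 0 1 = C c⁻¹ * (C ((-1 : Om K) ^ k) * (-expand (Om K) 2 m.u)) := by
    rw [hX, expand_eq_comp_X_pow]
    show C c⁻¹ * mdlM k m 0 1 = _
    simp [mdlM]
  have e10 : XX f 1 0 = C c * (C ((-1 : Om K) ^ k) * expand (Om K) 2 m.v) := by
    rw [hX, expand_eq_comp_X_pow]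
    show C c * mdlM k m 1 0 = _
    simp [mdlM]
  have ht : ∀ i, (XX f 0 0).coeff (2 * i) = (-1) ^ k * m.t.coeff i := by
    intro i
    rw [e00, coeff_C_mul, coeff_add, mul_comm 2 i, coeff_expand_mul (by norm_num)]
    have h1 : (X * expand (Om K) 2 m.s).coeff (i * 2) = 0 := by
      rcases i with _ | i
      · simp
      · rw [show (i + 1) * 2 = (2 * i + 1) + 1 by ring, coeff_X_mul, coeff_expand (by norm_num), if_neg (by omega)]
    rw [h1, add_zero]
  have hs : ∀ i, (XX f 0 0).coeff (2 * i + 1) = (-1) ^ k * m.s.coeff i := by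
    intro i
    rw [e00, coeff_C_mul, coeff_add, coeff_X_mul, coeff_expand (by norm_num), if_neg (by omega), mul_comm 2 i,
      coeff_expand_mul (by norm_num), zero_add]
  have hu : ∀ i, (XX f 0 1).coeff (2 * i) = c⁻¹ * ((-1) ^ k * -m.u.coeff i) := by
    intro i
    rw [e01, coeff_C_mul, coeff_C_mul, coeff_neg, mul_comm 2 i, coeff_expand_mul (by norm_num)]
  have hv : ∀ i, (XX f 1 0).coeff (2 * i) = c * ((-1) ^ k * m.v.coeff i) := by
    intro i
    rw [e10, coeff_C_mul, coeff_C_mul, mul_comm 2 i, coeff_expand_mul (by norm_num)]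
  refine ⟨hq, ?_, ?_, ?_, ?_, ?_⟩
  · rw [← hx]
    exact add_mem (mul_mem hz (pow_mem hT.w.mem 2)) (mul_mem (pow_mem hz 2) (pow_mem hT.v.mem 2))
  · rw [← hy]
    exact hT.y.mem
  · intro i
    have h1 := (hM 0 0 (2 * i + 1)).mem
    rw [hs] at h1
    have h2 := mul_mem he h1
    rwa [← mul_assoc, hs1, one_mul] at h2
  · intro i
    have h1 := (hM 0 0 (2 * i)).mem
    rw [ht] at h1
    have h2 := mul_mem he h1
    rwa [← mul_assoc, hs1, one_mul] at h2
  · intro i j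
    have h1 := (hM 0 1 (2 * i)).mem
    have h2 := (hM 1 0 (2 * j)).mem
    rw [hu] at h1
    rw [hv] at h2
    have h3 := neg_mem (mul_mem h1 h2)
    have h4 : -(c⁻¹ * ((-1) ^ k * -m.u.coeff i) * (c * ((-1) ^ k * m.v.coeff j))) = m.u.coeff i * m.v.coeff j := by
      have : c⁻¹ * c = 1 := inv_mul_cancel₀ hc
      linear_combination ((-1) ^ k * (-1) ^ k * m.u.coeff i * m.v.coeff j) * this + (m.u.coeff i * m.v.coeff j) * hs1
    rwa [h4] at h3

end GB
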