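import Pool.Agent.H99.GC.ChS
import Pool.Agent.H67.ES.MsDef

/-! # GC.NulB : points over a nonintegral base point or with nonintegral `x` specialise to points of class zero -/

namespace GB

open ES H68.BB Module

variable {K : Type} [Field K] [IsAlgClosed K] [CharZero K] {s k : ℕ} {W : Wm K s} {R : Type} [CommRing R] [Algebra K R] {P : OnePt K R} (C : Chart W P)
  {π : Place K (Om K)}

theorem nul_b (hW : W.Ok) (hinf : dd W C.inf = 0) {β : R →ₐ[K] Om K} {x y : Om K} (h : OnW W (⟨C.bp β, x, y⟩ : Pt s (Om K)))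
    (hn : (∃ f, β f ∉ π.V) ∨ x ∉ π.V) : Nul W k π (⟨C.bp β, x, y⟩ : Pt s (Om K)) := by
  by_cases hβ : ∀ f, β f ∈ π.V
  · have hx : x ∉ π.V := by
      rcases hn with ⟨f, hf⟩ | hx
      · exact absurd (hβ f) hf
      · exact hx
    exact ⟨o s K, sp_o C hW hβ hx h, fun Q i _ hi => cls_o W hi⟩
  · push Not at hβ
    obtain ⟨f, hf⟩ := hβ
    obtain ⟨p, hp, hSp, h0⟩ := sp_out C hW hf h
    refine ⟨p, hSp, fun Q i hQ hi => ?_⟩
    have e : cls W Q = sl W Q i p := by
      unfold sl
      rw [← hi, Function.update_eq_self]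
    rw [e]
    rcases h0 with h0 | h0
    · exact sl_zero hW hQ i hp h0
    · exact sl_sing hW hQ i hp (by rw [h0]; exact hinf)

end GB
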