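import Pool.Agent.H99.GC.CurB
import Pool.Agent.H99.GC.NulB
import Pool.Agent.H99.GC.EndB
import Pool.Agent.H67.ES.ToMs

/-! # GC.FamB : the family through the state of a list of links over points of the chart -/

namespace GB

open ES H68.BB Module Polynomial H71.ES

variable {K : Type} [Field K] [IsAlgClosed K] [CharZero K] {s k : ℕ} {W : Wm K s} {R : Type} [CommRing R] [Algebra K R] {P : OnePt K R} (C : Chart W P)

/-- the state of a multiset of points of the chart and a model point -/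
noncomputable def stB {F : Type} [Field F] [Algebra K F] (k : ℕ) (m : Multiset (R →ₐ[K] F) × Mdl F) : Ms s F :=
  ⟨m.1.map C.bp, m.2.x, m.2.y, mdlM k m.2⟩

omit [IsAlgClosed K] [CharZero K] in
private theorem fb_map (k : ℕ) (σ : Om K →+* Om K) (m : Mdl (Om K)) : mdlM k (m.map σ) = (mdlM k m).map (Polynomial.map σ) := by
  have hc : ∀ p : (Om K)[X], (p.map σ).comp (X ^ 2) = (p.comp (X ^ 2)).map σ := by
    intro p
    rw [Polynomial.map_comp, Polynomial.map_pow, map_X]
  have he : (Polynomial.C ((-1 : Om K) ^ k) : (Om K)[X]) = (Polynomial.C ((-1 : Om K) ^ k)).map σ := by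
    rw [Polynomial.map_C]
    congr 1
    rw [RingHom.map_pow, RingHom.map_neg, RingHom.map_one]
  have ht : (m.map σ).t = m.t.map σ := rfl
  have hs : (m.map σ).s = m.s.map σ := rfl
  have hu : (m.map σ).u = m.u.map σ := rfl
  have hv : (m.map σ).v = m.v.map σ := rfl
  ext1 i j
  rw [Matrix.map_apply]
  unfold mdlM
  rw [ht, hs, hu, hv, hc, hc, hc, hc, Matrix.smul_apply, Matrix.smul_apply, smul_eq_mul, smul_eq_mul, Polynomial.map_mul, ← he]
  congr 1
  fin_cases i <;> fin_cases j <;> simp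

private theorem fb_rd {π : Place K (Om K)} {m : Mdl (Om K)} {m0 : Mdl K} (h : RdM π m m0) : RdMt π (mdlM k m) (mdlM k m0) := by
  have h1 : RdM π ({ m with q := X ^ k } : Mdl (Om K)) ({ m0 with q := X ^ k } : Mdl K) := by
    refine ⟨?_, h.x, h.y, h.s, h.t, h.u, h.v⟩
    intro i
    change Rd π.V π.φ ((X ^ k : (Om K)[X]).coeff i) ((X ^ k : K[X]).coeff i)
    rw [coeff_X_pow, coeff_X_pow]
    split_ifs
    · exact Rd.one
    · exact Rd.zero
  exact (toMs_rd (k := k) (natDegree_X_pow k) (natDegree_X_pow k) (monic_X_pow k) h1).M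

private theorem fb_lab {F : Type} [Field F] [Algebra K F] (β : R →ₐ[K] F) : lab W (C.bp β) = (β C.A, β C.B) := by
  unfold lab
  rw [ev_bp, ev_bp]
  rfl

theorem fam_b (hW : W.Ok) (hinf : dd W C.inf = 0) (hab : ∀ c d : K, c • C.A ^ 3 = d • C.B ^ 2 → c = 0 ∧ d = 0)
    (hn : 0 < C.n) (hk : C.n + P.g ≤ k) {b : Fin k → (R →ₐ[K] K)} (hb : Function.Injective b)
    (hnd : ∀ i, ES.ND (lab W (C.bp (b i)))) {f : List (Lk s K)} (hf : f.map Prod.fst = List.ofFn fun i => C.bp (b i))
    (hl : ∀ g ∈ f, g.2.ab = lab W g.1) {T : Vtx K} (hT : T = tot (f.map Prod.snd))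
    (h4 : T.p ≠ 0 ∧ T.ps ≠ 0 ∧ T.m ≠ 0 ∧ T.ms ≠ 0) (hy : T.y ≠ 0) {z : K} (hz : z ^ 3 = 1) :
    Fam W k z ⟨((f.map Prod.fst : List (Fin s → K)) : Multiset (Fin s → K)), z * T.w ^ 2 + z ^ 2 * T.v ^ 2, T.y,
      XX (f.map Prod.snd)⟩ := by
  have hk0 : 0 < k := by omega
  have hlen : f.length = k := by
    have := congrArg List.length hf
    rwa [List.length_map, List.length_ofFn] at this
  have hlen' : (f.map Prod.snd).length = k := by rw [List.length_map, hlen]
  have ha0 : ∀ i, b i C.A ≠ 0 := by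
    intro i
    have := (hnd i).a
    rwa [fb_lab] at this
  have hb0 : ∀ i, b i C.B ≠ 0 := by
    intro i
    have := (hnd i).b
    rwa [fb_lab] at this
  obtain ⟨m0, hq0, hOn0, hM0, hx0, hy0⟩ := mdlB_of hk0 hlen' hz
  rw [← hT] at hx0 hy0
  have hlab : (((f.map Prod.snd).map Vtx.ab : List (K × K)) : Multiset (K × K)) =
      Finset.univ.val.map fun i => (b i C.A, b i C.B) := by
    have e1 : (f.map Prod.snd).map Vtx.ab = (f.map Prod.fst).map (lab W) := by
      rw [List.map_map, List.map_map]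
      exact List.map_congr_left fun g hg => hl g hg
    rw [e1, hf, List.map_ofFn, Fin.univ_val_map]
    congr 2
    funext i
    exact fb_lab C (b i)
  rw [hlab] at hOn0
  -- the product `u_k v_k` does not vanish
  have huv : m0.u.coeff k * m0.v.coeff k ≠ 0 := by
    obtain ⟨-, -, t01, t10⟩ := XX_top (f.map Prod.snd)
    rw [hlen', ← hT, ← hM0] at t01 t10
    have e01 : (mdlM k m0 0 1).coeff (2 * k) = (-1) ^ k * -m0.u.coeff k := by
      have : mdlM k m0 0 1 = Polynomial.C ((-1 : K) ^ k) * (-expand K 2 m0.u) := by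
        rw [expand_eq_comp_X_pow]; simp [mdlM]
      rw [this, coeff_C_mul, coeff_neg, mul_comm 2 k, coeff_expand_mul (by norm_num)]
    have e10 : (mdlM k m0 1 0).coeff (2 * k) = (-1) ^ k * m0.v.coeff k := by
      have : mdlM k m0 1 0 = Polynomial.C ((-1 : K) ^ k) * (expand K 2 m0.v) := by
        rw [expand_eq_comp_X_pow]; simp [mdlM]
      rw [this, coeff_C_mul, mul_comm 2 k, coeff_expand_mul (by norm_num)]
    have f01 : T.w ^ 6 - (T.y + T.v ^ 3) ^ 2 = T.ms * T.p := by unfold Vtx.ms Vtx.p; ring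
    have f10 : T.w ^ 6 - (T.y - T.v ^ 3) ^ 2 = T.m * T.ps := by unfold Vtx.m Vtx.ps; ring
    rw [e01, f01] at t01
    rw [e10, f10] at t10
    intro h0
    rcases mul_eq_zero.1 h0 with h | h
    · rw [h, neg_zero, mul_zero] at t01
      have : T.ms * T.p / 2 ≠ 0 := div_ne_zero (mul_ne_zero h4.2.2.2 h4.1) two_ne_zero
      exact this t01.symm
    · rw [h, mul_zero] at t10
      have : T.m * T.ps / 2 ≠ 0 := div_ne_zero (mul_ne_zero h4.2.2.1 h4.2.1) two_ne_zero
      exact this t10.symm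
  obtain ⟨M, π0, π1, hne, hon, hgal, hrd, hbd⟩ := curveB C hW hab hn hk hb ha0 hb0 hq0 hOn0 (by rw [hy0]; exact hy) huv
  have hon' : ∀ m ∈ M, OnS W k (stB C k m) := by
    intro m hm
    obtain ⟨-, h1⟩ := hon m hm
    have hlm : ((m.1.map C.bp).map (lab W) : Multiset (Om K × Om K)) = m.1.map fun β => (β C.A, β C.B) := by
      rw [Multiset.map_map]
      exact Multiset.map_congr rfl fun β _ => fb_lab C β
    refine ⟨?_, ?_, ?_, ?_⟩
    · intro β' hβ' q hq
      obtain ⟨β, hβ, rfl⟩ := Multiset.mem_map.1 hβ'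
      rw [ev_bp, C.I q hq, map_zero]
    · intro β' hβ' h0
      obtain ⟨β, hβ, rfl⟩ := Multiset.mem_map.1 hβ'
      obtain ⟨b', hb', hr⟩ := Multiset.exists_mem_of_rel_of_mem (hrd m hm).1 hβ
      obtain ⟨i, -, rfl⟩ := Multiset.mem_map.1 hb'
      have h2 := hr C.A
      have h3 : β C.A = 0 := by
        have h4 := ev_bp C β W.a
        rw [h0, ev_zero hW.a (by have := hW.n; omega)] at h4
        exact h4.symm
      rw [h3] at h2
      exact ha0 i (Rd.zero.unique h2).symm
    · show St k ((m.1.map C.bp).map (lab W)) (mdlM k m.2)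
      rw [hlm]
      exact mdlB_st hk0 h1
    · have h2 := h1.eqy
      show m.2.y ^ 2 = m.2.x ^ 3 - 3 * ((m.1.map C.bp).map fun β => ev W.a β).prod * m.2.x - 2 * (mdlM k m.2 0 0).coeff (2 * k)
      rw [mdlB_top hk0 h1, h2]
      congr 3
      rw [Multiset.map_map, Multiset.map_map]
      congr 2
      exact Multiset.map_congr rfl fun β _ => (ev_bp C β W.a).symm
  refine ⟨M.map (stB C k), π0, π1, ?_, ?_, ?_, ?_, ?_⟩
  · rw [Ne, Multiset.map_eq_zero]
    exact hne
  · intro m' hm'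
    obtain ⟨m, hm, rfl⟩ := Multiset.mem_map.1 hm'
    exact hon' m hm
  · intro σ
    rw [Multiset.map_map]
    have h2 : ∀ m ∈ M, (Ms.map (σ : Om K →+* Om K) ∘ stB C k) m = (stB C k ∘ galM σ) m := by
      intro m _
      refine Ms.ext ?_ rfl rfl ?_
      · show (m.1.map C.bp).map (fun β i => σ (β i)) = (m.1.map _).map C.bp
        rw [Multiset.map_map, Multiset.map_map]
        rfl
      · exact (fb_map k (σ : Om K →+* Om K) m.2).symm
    rw [Multiset.map_congr rfl h2, ← Multiset.map_map, hgal σ]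
  · intro m' hm'
    obtain ⟨m, hm, rfl⟩ := Multiset.mem_map.1 hm'
    obtain ⟨h1, h2⟩ := hrd m hm
    refine ⟨?_, ?_, ?_, ?_⟩
    · show Multiset.Rel _ (m.1.map C.bp) ((f.map Prod.fst : List (Fin s → K)) : Multiset (Fin s → K))
      have e1 : ((f.map Prod.fst : List (Fin s → K)) : Multiset (Fin s → K)) = (Finset.univ.val.map b).map C.bp := by
        rw [hf, Multiset.map_map, Fin.univ_val_map]
        rfl
      rw [e1, Multiset.rel_map]
      exact h1.mono fun β _ b' _ h i => h (C.t i)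
    · have := h2.x
      rw [hx0] at this
      exact this
    · have := h2.y
      rw [hy0] at this
      exact this
    · have h3 := fb_rd (k := k) h2
      rw [hM0] at h3
      exact h3
  · intro m' hm' w v hx f' hf'
    obtain ⟨m, hm, rfl⟩ := Multiset.mem_map.1 hm'
    obtain ⟨hB, hlb, ⟨c, hc, hX⟩, htot⟩ := hf'
    obtain ⟨hq1, hOn⟩ := hon m hm
    by_contra hcon
    push Not at hcon
    -- every link is over a point of the chart, and its point is on `W`
    have key : ∀ g ∈ f', ∀ β : R →ₐ[K] Om K, C.bp β = g.1 → (∀ r, β r ∈ π1.V) ∧ g.2.w ^ 2 + g.2.v ^ 2 ∈ π1.V := by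
      intro g hg β hgβ
      have h1 : g.1 ∈ (stB C k m).B := by
        rw [← hB]
        exact Multiset.mem_coe.2 (List.mem_map.2 ⟨g, hg, rfl⟩)
      have hgl := hlb g hg
      have hOnW : OnW W (⟨C.bp β, g.2.w ^ 2 + g.2.v ^ 2, g.2.y⟩ : Pt s (Om K)) := by
        refine onW_bp C (Or.inl ?_) ?_
        · rw [hgβ]
          exact (hon' m hm).ne g.1 h1
        · rw [← hgβ, fb_lab] at hgl
          have e1 : (g.2.w * g.2.v) ^ 2 = β C.A := congrArg Prod.fst hgl
          have e2 : (g.2.w ^ 6 + g.2.v ^ 6 - g.2.y ^ 2) / 2 = β C.B := congrArg Prod.snd hgl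
          rw [← e1, ← e2]
          field_simp
          ring
      have hnul := hcon g hg
      have hpt : g.pt = ⟨C.bp β, g.2.w ^ 2 + g.2.v ^ 2, g.2.y⟩ := by
        unfold Lk.pt
        rw [← hgβ]
      rw [hpt] at hnul
      refine ⟨?_, ?_⟩
      · intro r
        by_contra hr
        exact hnul (nul_b C hW hinf hOnW (Or.inl ⟨r, hr⟩))
      · by_contra hr
        exact hnul (nul_b C hW hinf hOnW (Or.inr hr))
    have hint : ∀ g ∈ f'.map Prod.snd, g.ab.1 ∈ π1.V ∧ g.w ^ 2 + g.v ^ 2 ∈ π1.V ∧ g.y ∈ π1.V := by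
      intro u hu
      obtain ⟨g, hg, rfl⟩ := List.mem_map.1 hu
      have h0 : g.1 ∈ (stB C k m).B := by
        rw [← hB]
        exact Multiset.mem_coe.2 (List.mem_map.2 ⟨g, hg, rfl⟩)
      obtain ⟨β, -, hgβ⟩ := Multiset.mem_map.1 h0
      obtain ⟨h1, h2⟩ := key g hg β hgβ
      have hgl := hlb g hg
      rw [← hgβ, fb_lab] at hgl
      have e1 : (g.2.w * g.2.v) ^ 2 = β C.A := congrArg Prod.fst hgl
      have e2 : (g.2.w ^ 6 + g.2.v ^ 6 - g.2.y ^ 2) / 2 = β C.B := congrArg Prod.snd hgl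
      refine ⟨?_, h2, ?_⟩
      · rw [hgl]
        exact h1 C.A
      · refine mem_of_pow (n := 2) (by norm_num) ?_
        have e3 : g.2.y ^ 2 = (g.2.w ^ 2 + g.2.v ^ 2) ^ 3 - 3 * β C.A * (g.2.w ^ 2 + g.2.v ^ 2) - 2 * β C.B := by
          rw [← e1, ← e2]
          field_simp
          ring
        rw [e3]
        have m3 : (3 : Om K) ∈ π1.V := (Rd.three (V := π1.V) (φ := π1.φ)).mem
        have m2 : (2 : Om K) ∈ π1.V := (Rd.two (V := π1.V) (φ := π1.φ)).mem
        exact sub_mem (sub_mem (pow_mem h2 3) (mul_mem (mul_mem m3 (h1 C.A)) h2)) (mul_mem m2 (h1 C.B))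
    -- all moved points are integral
    have hallint : ∀ β ∈ m.1, ∀ r, β r ∈ π1.V := by
      intro β hβ
      have h1 : C.bp β ∈ (stB C k m).B := Multiset.mem_map_of_mem _ hβ
      rw [← hB] at h1
      obtain ⟨g, hg, hgβ⟩ := List.mem_map.1 (Multiset.mem_coe.1 h1)
      exact (key g hg β hgβ.symm).1
    rcases hbd m hm with ⟨β, hβ, r, hr⟩ | hnb
    · exact hr (hallint β hβ r)
    · refine hnb (end_b (c := c) (f := f'.map Prod.snd) (k := k) (z := z) ?_ hc hX ?_ ?_ hint)
      · intro i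
        rw [hq1, coeff_one]
        split_ifs
        · exact π1.V.one_mem
        · exact π1.V.zero_mem
      · rw [htot]
        rfl
      · rw [htot]
        exact hx

end GB
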