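import Pool.Agent.H99.GC.NestK
import Pool.Agent.H99.GC.FamB
import Pool.Agent.H67.ES.Fibre
import Pool.Agent.H34.ES.Cs1R
import Pool.Agent.H34.ES.Alt

/-! # GC.MainB : the main theorem over a chart of an arbitrary base curve -/

namespace GB

open ES H68.BB Module

variable {K : Type} [Field K] [IsAlgClosed K] [CharZero K] {s k : ℕ} {W : Wm K s} {R : Type} [CommRing R] [Algebra K R] {P : OnePt K R} (C : Chart W P)

theorem main_b (hW : W.Ok) (hinf : dd W C.inf = 0) (hab : ∀ c d : K, c • C.A ^ 3 = d • C.B ^ 2 → c = 0 ∧ d = 0)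
    (hn : 0 < C.n) (hk : C.n + P.g ≤ k) {Q : Fin k → Pt s K} (hQ : ∀ j, OnW W (Q j)) (hIn : ∀ j, C.In (Q j)) :
    IsOfFinAddOrder (cls W Q) := by
  have hk0 : 0 < k := by omega
  let q : AA k W →+ AA k W ⧸ AddCommGroup.torsion (AA k W) := QuotientAddGroup.mk' (AddCommGroup.torsion (AA k W))
  have hq : ∀ x : AA k W, q x = 0 ↔ IsOfFinAddOrder x := fun x =>
    (QuotientAddGroup.eq_zero_iff (N := AddCommGroup.torsion (AA k W)) x).trans Iff.rfl
  rw [← hq]
  refine nest_k C hW hinf hab hk0 ?_ q ?_ hQ hIn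
  · intro N z hN hz
    obtain ⟨x, rfl⟩ := QuotientAddGroup.mk'_surjective (AddCommGroup.torsion (AA k W)) z
    have h1 : q (N • x) = 0 := by
      rw [map_nsmul]
      exact hz
    rw [hq, isOfFinAddOrder_iff_nsmul_eq_zero] at h1
    obtain ⟨M, hM, h2⟩ := h1
    refine (hq x).2 (isOfFinAddOrder_iff_nsmul_eq_zero.2 ⟨M * N, Nat.mul_pos hM hN, ?_⟩)
    rw [mul_smul]
    exact h2
  · intro b hnd hsep hkap Q' hQ' hQβ
    rw [hq]
    have hne : ∀ j, C.bp (b j) ≠ 0 := by
      intro j h0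
      have h1 := (hnd j).a
      apply h1
      show ev W.a (C.bp (b j)) = 0
      rw [h0]
      exact ev_zero hW.a (by have := hW.n; omega)
    have hinj : Function.Injective b := by
      intro i j hij
      by_contra hne'
      exact hsep i j hne' (by rw [hij])
    refine fibre hW (fun f f' e h h1 h2 h3 h4 => cs1 hW h h1 h2 h3 h4)
      (fun c f f' T hl hk hf hb hn hR hT hp hps hm hms hy hc ht => ?_)
      (fun g f hf h0 hl om hom => Psi_rot3 hW hf h0 hl hom) hk0 (β := fun j => C.bp (b j)) ?_ hne hnd hsep hkap ?_ hQ' hQβ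
    · subst hT
      exact cs2 hW c f f' hl hk hf hb hn hR hp hps hm hms hy hc ht
    · intro j q' hq'
      rw [ev_bp, C.I q' hq', map_zero]
    · intro f hl hf hlab T hT h4 hy z hz
      exact fam_b C hW hinf hab hn hk hinj hnd hf hlab hT h4 hy hz

/-- the antisymmetrised product of the cycles `Q_j - o` is torsion -/
theorem alt_b (hW : W.Ok) (hinf : dd W C.inf = 0) (hab : ∀ c d : K, c • C.A ^ 3 = d • C.B ^ 2 → c = 0 ∧ d = 0)
    (hn : 0 < C.n) (hk : C.n + P.g ≤ k) {Q : Fin k → Pt s K} (hQ : ∀ j, OnW W (Q j)) (hIn : ∀ j, C.In (Q j)) :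
    ∃ N : ℕ, 0 < N ∧ N • alt Q ∈ RatEq k W := by
  obtain ⟨N, hN, h⟩ := isOfFinAddOrder_iff_nsmul_eq_zero.1 (main_b C hW hinf hab hn hk hQ hIn)
  exact ⟨N, hN, alt_mem hW h⟩

end GB
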