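import Pool.Agent.H99.GC.Fam1

/-! # GC.Ext : from the points over almost all base points to all points over the chart (150 lines; compare `H34/ES/ExtT.lean`)

`φ Q' := h (sl W Q i Q')`; `N • z = 0` with `N > 0` implies `z = 0` in `B'`.  If `dd W (bp b) = 0`: `sl_sing`; if `bp b = 0`: `sl_zero`.
Case `y ≠ 0`: `T` = the finite set of bad points.  Choose `g ∈ R` with `b g = 0` and `c g ≠ 0` for all `c ∈ T ∪ U`, `c ≠ b` (finitely many different kernels: prime avoidance, or `exists_x`-style products) (`b ∉ U` because `bp b ≠ 0`: the coordinates vanish on `U`, `ord`, `mem_zk`;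
`v_i > 0`).  For `λ ∈ K` put `l = algebraMap y + λ • g`, `S1 = l² - x³ + 3 x A + 2 B`.  For all but finitely many `λ`: `c l ≠ 0` for `c ∈ U`; `c S1 ≠ 0` for `c ∈ T`, `c ≠ b` (a quadratic polynomial in `λ` with leading coefficient `(c g)²`);
`S1 ≠ 0` (take one further point `c₀ ≠ b` with `c₀ g ≠ 0`; if there is none in `T ∪ U` then put one point into `T`).  `fam1`: `0 = Σ_(c ∈ zk S1) φ (bp c, x, c l)`; `b ∈ zk S1` (`b S1 = y² - x³ + 3 x A(b) + 2 B(b) = 0`), with multiplicity `N > 0`, all other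
`c` are not in `T` and give `0` (they are on `W` if `bp c ≠ 0` or ..., if `bp c = 0` use `sl_zero`).  So `N • φ (bp b, x, y) = 0`.
Case `y = 0`: `sl_line` with slope `1` through `(x, 0)`: `φ Q' = - φ Q2 - φ Q3` with `Q2, Q3` over the same `b`, `x2, x3 ≠ x` (`3 x² - 3 a ≠ 0` because `dd ≠ 0`), so `y2, y3 ≠ 0`. -/

namespace GB

open ES H68.BB Module

variable {K : Type} [Field K] [IsAlgClosed K] [CharZero K] {s : ℕ} {W : Wm K s} {R : Type} [CommRing R] [Algebra K R] {P : OnePt K R} (C : Chart W P)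

omit [IsAlgClosed K] [CharZero K] in
private theorem ext_ker_le {b c : R →ₐ[K] K} (h : RingHom.ker b ≤ RingHom.ker c) : c = b := by
  refine AlgHom.ext fun z => ?_
  have h1 : z - algebraMap K R (b z) ∈ RingHom.ker b := by
    rw [RingHom.mem_ker, map_sub, AlgHom.commutes, Algebra.algebraMap_self_apply, sub_self]
  have h2 := h h1
  rw [RingHom.mem_ker, map_sub, AlgHom.commutes, Algebra.algebraMap_self_apply] at h2
  exact sub_eq_zero.mp h2

omit [IsAlgClosed K] [CharZero K] in
private theorem ext_avoid (b : R →ₐ[K] K) (F : Finset (R →ₐ[K] K)) (hb : b ∉ F) :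
    ∃ g : R, b g = 0 ∧ ∀ c ∈ F, c g ≠ 0 := by
  by_contra hcon
  push Not at hcon
  have h1 : ((RingHom.ker b : Ideal R) : Set R) ⊆
      ⋃ c ∈ (F : Set (R →ₐ[K] K)), ((RingHom.ker c : Ideal R) : Set R) := by
    intro g hg
    obtain ⟨c, hc, hcg⟩ := hcon g hg
    exact Set.mem_biUnion hc hcg
  rw [Ideal.subset_union_prime b b (fun c _ _ _ => RingHom.ker_isPrime c)] at h1
  obtain ⟨c, hc, hle⟩ := h1
  rw [ext_ker_le hle] at hc
  exact hb hc

omit [CharZero K] in
private theorem ext_other (P : OnePt K R) (b : R →ₐ[K] K) : ∃ c : R →ₐ[K] K, c ≠ b := by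
  obtain ⟨N, hN⟩ := P.big
  obtain ⟨f, hf, hd⟩ := hN (N + 1) (Nat.le_succ N)
  have h1 : P.Lt (P.deg f) (algebraMap K R (-(b f + 1))) := by
    right
    rw [P.deg_const, hd]
    exact Nat.succ_pos N
  have h2 := (add_lt P h1).1
  have h3 : f + algebraMap K R (-(b f + 1)) ≠ 0 := by
    intro h0
    rw [h0, P.deg_zero, hd] at h2
    omega
  have h4 := zk_card P h3
  rw [h2, hd] at h4
  obtain ⟨c, hc⟩ := Multiset.card_pos_iff_exists_mem.mp (by rw [h4]; exact Nat.succ_pos N)
  refine ⟨c, ?_⟩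
  rintro rfl
  have h5 := (mem_zk P h3 c).mp hc
  rw [map_add, AlgHom.commutes, Algebra.algebraMap_self_apply] at h5
  have h6 : (1 : K) = 0 := by linear_combination -h5
  exact one_ne_zero h6

omit [IsAlgClosed K] in
private theorem ext_quad {y d c : K} (hd : d ≠ 0) :
    (Polynomial.C y + Polynomial.C d * Polynomial.X) ^ 2 + Polynomial.C c ≠ (0 : Polynomial K) := by
  intro h
  have h0 := congrArg (Polynomial.eval 0) h
  have h1 := congrArg (Polynomial.eval 1) h
  have h2 := congrArg (Polynomial.eval (-1)) h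
  simp only [Polynomial.eval_add, Polynomial.eval_pow, Polynomial.eval_mul, Polynomial.eval_C, Polynomial.eval_X,
    Polynomial.eval_zero] at h0 h1 h2
  have h3 : (2 : K) * d ^ 2 = 0 := by linear_combination h1 + h2 - 2 * h0
  rcases mul_eq_zero.mp h3 with h4 | h4
  · exact two_ne_zero h4
  · exact hd (pow_eq_zero_iff (two_ne_zero) |>.mp h4)

omit [IsAlgClosed K] [CharZero K] in
private theorem ext_lin {y d : K} (hd : d ≠ 0) :
    Polynomial.C y + Polynomial.C d * Polynomial.X ≠ (0 : Polynomial K) := by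
  intro h
  have h0 := congrArg (Polynomial.eval 0) h
  have h1 := congrArg (Polynomial.eval 1) h
  simp only [Polynomial.eval_add, Polynomial.eval_mul, Polynomial.eval_C, Polynomial.eval_X,
    Polynomial.eval_zero] at h0 h1
  exact hd (by linear_combination h1 - h0)

theorem ext_b (hW : W.Ok) (hinf : dd W C.inf = 0) {k : ℕ} {Q : Fin k → Pt s K} (hQ : ∀ j, OnW W (Q j)) (i : Fin k)
    {B' : Type} [AddCommGroup B'] (hB : ∀ (N : ℕ) (z : B'), 0 < N → N • z = 0 → z = 0) (h : AA k W →+ B')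
    (hfin : {b : R →ₐ[K] K | ∃ x y, OnW W (⟨C.bp b, x, y⟩ : Pt s K) ∧ h (sl W Q i ⟨C.bp b, x, y⟩) ≠ 0}.Finite)
    {b : R →ₐ[K] K} {x y : K} (hb : OnW W (⟨C.bp b, x, y⟩ : Pt s K)) : h (sl W Q i ⟨C.bp b, x, y⟩) = 0 := by
  classical
  have hinfK : Infinite K := Infinite.of_injective (fun m : ℕ => (m : K)) Nat.cast_injective
  by_cases hβ : C.bp b = 0
  · rw [sl_zero hW hQ i hb hβ, map_zero]
  have hbU : b ∉ C.U := by
    intro hbU
    apply hβ
    funext i
    change b (C.t i) = 0
    by_cases h0 : C.t i = 0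
    · rw [h0, map_zero]
    · have h1 := C.ord i h0
      have h2 : b ∈ W.v i • C.U := Multiset.mem_nsmul.mpr ⟨(hW.v i).ne', hbU⟩
      exact (mem_zk P h0 b).mp (Multiset.mem_of_le h1 h2)
  obtain ⟨c0, hc0⟩ := ext_other P b
  set F : Finset (R →ₐ[K] K) := ((hfin.toFinset ∪ C.U.toFinset) ∪ {c0}).erase b with hF
  obtain ⟨g, hbg, hg⟩ := ext_avoid b F (Finset.notMem_erase _ _)
  set q : (R →ₐ[K] K) → Polynomial K := fun c => (Polynomial.C y + Polynomial.C (c g) * Polynomial.X) ^ 2 +
    Polynomial.C (-x ^ 3 + 3 * x * c C.A + 2 * c C.B) with hq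
  set p : (R →ₐ[K] K) → Polynomial K := fun c => Polynomial.C y + Polynomial.C (c g) * Polynomial.X with hp
  obtain ⟨lam, hlam⟩ := Infinite.exists_notMem_finset
    (F.biUnion fun c => (q c).roots.toFinset ∪ (p c).roots.toFinset)
  have hlq : ∀ c ∈ F, (q c).eval lam ≠ 0 := fun c hc hh => hlam (Finset.mem_biUnion.mpr ⟨c, hc,
    Finset.mem_union_left _ (Multiset.mem_toFinset.mpr ((Polynomial.mem_roots (ext_quad (hg c hc))).mpr hh))⟩)
  have hlp : ∀ c ∈ F, (p c).eval lam ≠ 0 := fun c hc hh => hlam (Finset.mem_biUnion.mpr ⟨c, hc,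
    Finset.mem_union_right _ (Multiset.mem_toFinset.mpr ((Polynomial.mem_roots (ext_lin (hg c hc))).mpr hh))⟩)
  set l : R := algebraMap K R y + lam • g with hl
  have hcl : ∀ c : R →ₐ[K] K, c l = y + lam * c g := by
    intro c
    rw [hl, map_add, AlgHom.commutes, Algebra.algebraMap_self_apply, map_smul, smul_eq_mul]
  have hbl : b l = y := by rw [hcl, hbg, mul_zero, add_zero]
  set S1 : R := l ^ 2 - algebraMap K R (x ^ 3) + (3 * x) • C.A + (2 : K) • C.B with hS1
  have hcS : ∀ c : R →ₐ[K] K, c S1 = c l ^ 2 - x ^ 3 + 3 * x * c C.A + 2 * c C.B := by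
    intro c
    rw [hS1, map_add, map_add, map_sub, map_pow, AlgHom.commutes, Algebra.algebraMap_self_apply, map_smul, map_smul,
      smul_eq_mul, smul_eq_mul]
  have hcq : ∀ c : R →ₐ[K] K, c S1 = (q c).eval lam := by
    intro c
    rw [hcS, hcl, hq]
    simp only [Polynomial.eval_add, Polynomial.eval_pow, Polynomial.eval_mul, Polynomial.eval_C, Polynomial.eval_X]
    ring
  have hc0F : c0 ∈ F := Finset.mem_erase.mpr ⟨hc0, Finset.mem_union_right _ (Finset.mem_singleton_self c0)⟩
  have hS0 : S1 ≠ 0 := by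
    intro h0
    have h1 := hlq c0 hc0F
    rw [← hcq, h0, map_zero] at h1
    exact h1 rfl
  have hUl : ∀ c ∈ C.U, c l ≠ 0 := by
    intro c hc
    have hcF : c ∈ F := Finset.mem_erase.mpr ⟨fun hh => hbU (hh ▸ hc),
      Finset.mem_union_left _ (Finset.mem_union_right _ (Multiset.mem_toFinset.mpr hc))⟩
    have h1 := hlp c hcF
    simp only [hp, Polynomial.eval_add, Polynomial.eval_mul, Polynomial.eval_C, Polynomial.eval_X] at h1
    rw [hcl, mul_comm lam]
    exact h1
  have hfam := fam1 C hW hinf hQ i x l hS0 hUl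
  have hfam2 := congrArg h hfam
  rw [map_zero, map_multiset_sum, Multiset.map_map] at hfam2
  have hbS : b S1 = 0 := by
    have h1 := hb.2.2
    rw [ev_bp C b, ev_bp C b] at h1
    have h2 : y ^ 2 = x ^ 3 - 3 * b C.A * x - 2 * b C.B := h1
    rw [hcS, hbl]
    linear_combination h2
  have hsum := Multiset.sum_map_eq_nsmul_single (m := zk K S1)
    (f := h ∘ fun c : R →ₐ[K] K => sl W Q i ⟨C.bp c, x, c l⟩) b ?_
  · rw [hsum] at hfam2
    have h1 := hB _ _ (Multiset.count_pos.mpr ((mem_zk P hS0 b).mpr hbS)) hfam2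
    simp only [Function.comp_apply, hbl] at h1
    exact h1
  · intro c hcb hc
    by_contra hne
    have hcS0 : c S1 = 0 := (mem_zk P hS0 c).mp hc
    have hOn : OnW W (⟨C.bp c, x, c l⟩ : Pt s K) := by
      refine onW_bp C ?_ ?_
      · by_cases h1 : C.bp c = 0
        · right; right
          refine hUl c ?_
          by_contra hcU
          obtain ⟨j, hj⟩ := C.nz c hcU
          exact hj (congrFun h1 j)
        · exact Or.inl h1
      · rw [hcS] at hcS0
        linear_combination hcS0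
    have hcF : c ∈ F := Finset.mem_erase.mpr ⟨hcb,
      Finset.mem_union_left _ (Finset.mem_union_left _ (hfin.mem_toFinset.mpr ⟨x, c l, hOn, hne⟩))⟩
    have h1 := hlq c hcF
    rw [← hcq] at h1
    exact h1 hcS0

end GB
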