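import Pool.Agent.H99.GC.ChA

/-! # GC.ChS : specialisation of points of `W` over the chart (120 lines)

`sp_int`: all values of `β` are integral and reduce to `b` (`RdP`), `x`, `y` integral: `Sp_fin`.  `sp_o`: `β` integral, `x ∉ V`: `Sp_inf` (`Spc.lean`).
`sp_out`: `β` is not integral.  `inf_scale` gives `c₁` with `c₁ ^ deg f * β f → lc f`; put `c = c₁ ^ m`, so `c ^ (v i) * β (t i)` reduces to `inf i`.  Let `x' = c ^ (2 n) x`, `y' = c ^ (3 n) y`: `(c^v β t : x' : y')` is again a solution of the equation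
(`ev_scale`), with integral base coordinates.  If `x' ∈ V`, then `y' ∈ V` (`y'^2` integral; `mem_of_pow`), and `Sp_fin` (in the form: `Sp` of the scaled point gives `Sp` of the point) gives a point over `inf` (it is on `W`: reduce the equations, `rd_ev`).  If `x' ∉ V`,
`Sp_inf` gives `o`. -/

namespace GB

open ES H68.BB Module

variable {K : Type} [Field K] [IsAlgClosed K] {s : ℕ} {W : Wm K s} {R : Type} [CommRing R] [Algebra K R] {P : OnePt K R} (C : Chart W P)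
  {π : Place K (Om K)}

theorem sp_int {β : R →ₐ[K] Om K} {b : R →ₐ[K] K} (hβ : RdP π β b) {x y : Om K} {x' y' : K} (hx : Rd π.V π.φ x x')
    (hy : Rd π.V π.φ y y') (hz : C.bp b ≠ 0 ∨ x' ≠ 0 ∨ y' ≠ 0) :
    Sp W π (⟨C.bp β, x, y⟩ : Pt s (Om K)) (⟨C.bp b, x', y'⟩ : Pt s K) :=
  Sp_fin hz (fun i => hβ (C.t i)) hx hy

theorem sp_o (hW : W.Ok) {β : R →ₐ[K] Om K} (hβ : ∀ f, β f ∈ π.V) {x y : Om K} (hx : x ∉ π.V)
    (h : OnW W (⟨C.bp β, x, y⟩ : Pt s (Om K))) : Sp W π (⟨C.bp β, x, y⟩ : Pt s (Om K)) (o s K) :=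
  Sp_inf hW h (fun i => hβ (C.t i)) hx

omit [IsAlgClosed K] in
/-- a specialisation of a scaled point is a specialisation of the point -/
private theorem sp_unscale {Q : Pt s (Om K)} {p : Pt s K} {c : Om K} (hc : c ≠ 0) (h : Sp W π (Q.smul W c) p) :
    Sp W π Q p := by
  obtain ⟨hp, d, hd, h0, h2, h3⟩ := h
  refine ⟨hp, d * c, mul_ne_zero hd hc, ?_, ?_, ?_⟩
  · intro i
    have := h0 i
    unfold Pt.smul at this
    rw [mul_pow, mul_assoc]; exact this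
  · unfold Pt.smul at h2
    rw [mul_pow, mul_assoc]; exact h2
  · unfold Pt.smul at h3
    rw [mul_pow, mul_assoc]; exact h3

omit [IsAlgClosed K] in
/-- `y` is integral if `x` and the base coordinates are -/
private theorem y_mem {Q : Pt s (Om K)} (h : OnW W Q) {β' : Fin s → K} (r0 : ∀ i, Rd π.V π.φ (Q.β i) (β' i))
    (hx : Q.x ∈ π.V) : Q.y ∈ π.V := by
  refine mem_of_pow (n := 2) (by norm_num) ?_
  rw [h.2.2]
  have h3 : (3 : Om K) ∈ π.V := (Rd.three (V := π.V) (φ := π.φ)).mem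
  have h2 : (2 : Om K) ∈ π.V := (Rd.two (V := π.V) (φ := π.φ)).mem
  have ha : ev W.a Q.β ∈ π.V := (rd_ev W.a r0).mem
  have hb : ev W.b Q.β ∈ π.V := (rd_ev W.b r0).mem
  exact sub_mem (sub_mem (pow_mem hx 3) (mul_mem (mul_mem h3 ha) hx)) (mul_mem h2 hb)

theorem sp_out (hW : W.Ok) {β : R →ₐ[K] Om K} {f : R} (hβ : β f ∉ π.V) {x y : Om K}
    (h : OnW W (⟨C.bp β, x, y⟩ : Pt s (Om K))) :
    ∃ p : Pt s K, OnW W p ∧ Sp W π (⟨C.bp β, x, y⟩ : Pt s (Om K)) p ∧ (p.β = 0 ∨ p.β = C.inf) := by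
  obtain ⟨c₁, hc₁, -, h1, h2⟩ := inf_scale P hβ
  set c : Om K := c₁ ^ C.m with hc
  have hc0 : c ≠ 0 := pow_ne_zero _ hc₁
  have r0 : ∀ i, Rd π.V π.φ (c ^ W.v i * C.bp β i) (C.inf i) := by
    intro i
    have e : c ^ W.v i * C.bp β i = c₁ ^ (C.m * W.v i) * β (C.t i) := by
      rw [hc, ← pow_mul]; rfl
    rw [e]
    unfold Chart.inf
    by_cases h0 : C.t i = 0
    · have e2 : (if P.deg (C.t i) = C.m * W.v i then P.lc (C.t i) else 0) = 0 := by
        rw [h0, P.lc_zero]; split_ifs <;> rfl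
      rw [e2, h0, map_zero, mul_zero]
      exact Rd.zero
    · by_cases hd : P.deg (C.t i) = C.m * W.v i
      · rw [if_pos hd, ← hd]
        exact h1 _ h0
      · rw [if_neg hd]
        refine h2 _ _ (Or.inr ?_)
        rcases C.deg i with h3 | h3
        · exact absurd h3 h0
        · omega
  have h' := OnW_smul hW h hc0
  by_cases hx : ((⟨C.bp β, x, y⟩ : Pt s (Om K)).smul W c).x ∈ π.V
  · have hy := y_mem h' (β' := C.inf) r0 hx
    have hSp : Sp W π ((⟨C.bp β, x, y⟩ : Pt s (Om K)).smul W c) (⟨C.inf, π.φ ⟨_, hx⟩, π.φ ⟨_, hy⟩⟩ : Pt s K) :=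
      Sp_fin (Or.inl (inf_ne C)) r0 (Rd.of_mem hx) (Rd.of_mem hy)
    have hSp' := sp_unscale hc0 hSp
    exact ⟨_, Sp_onW hW h hSp', hSp', Or.inr rfl⟩
  · have hSp := sp_unscale hc0 (Sp_inf hW h' (fun i => (r0 i).mem) hx)
    exact ⟨o s K, OnW_o hW K, hSp, Or.inl rfl⟩

/-- everything specialises -/
theorem sp_any (hW : W.Ok) {β : R →ₐ[K] Om K} {x y : Om K} (h : OnW W (⟨C.bp β, x, y⟩ : Pt s (Om K)))
    (hU : ∀ b : R →ₐ[K] K, RdP π β b → C.bp b ≠ 0 ∨ x ∉ π.V) :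
    ∃ p : Pt s K, OnW W p ∧ Sp W π (⟨C.bp β, x, y⟩ : Pt s (Om K)) p := by
  by_cases hβ : ∀ f, β f ∈ π.V
  · obtain ⟨b, hb⟩ := exists_rdP hβ
    by_cases hx : x ∈ π.V
    · have hy : y ∈ π.V := y_mem h (β' := C.bp b) (fun i => hb (C.t i)) hx
      have hz : C.bp b ≠ 0 := (hU b hb).resolve_right (fun h => h hx)
      have hSp := sp_int C hb (Rd.of_mem (φ := π.φ) hx) (Rd.of_mem (φ := π.φ) hy) (Or.inl hz)
      exact ⟨_, Sp_onW hW h hSp, hSp⟩
    · exact ⟨o s K, OnW_o hW K, sp_o C hW hβ hx h⟩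
  · push Not at hβ
    obtain ⟨f, hf⟩ := hβ
    obtain ⟨p, hp, hSp, -⟩ := sp_out C hW hf h
    exact ⟨p, hp, hSp⟩

end GB
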