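import Pool.Agent.H99.GC.Chart

/-! # GC.ChA : the coefficients `a`, `b` in a chart, and the points of `W` over the chart (150 lines)

`ch_deg`, `ch_ord`: a weighted homogeneous polynomial of weight `N` is a sum of monomials `c z^e` with `Σ e_i v_i = N`; `P.Lt (m N + 1)` for each (`deg_mul`, `deg_pow`; induction over the exponents) and for the sum (`Lt.add`); every nonzero monomial
vanishes at least to the order `N • U` (`zk_mul`; a nonzero constant has no zeros), for a sum use `Reg` at every `c ∈ U` (`Multiset.le_iff_count`, `classical`; induction over the support, skipping zero partial sums).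
`ev_bp`: `ev q (β ∘ t) = β (aeval t q)` (`MvPolynomial.aeval` and algebra homomorphisms: `MvPolynomial.map_aeval` or `MvPolynomial.aeval_algHom_apply`).  `onW_bp` is then the definition.
`inf_ne`: `top` and `lc_ne`.  `I_inf`, `ev_inf`: for `q` weighted homogeneous of weight `N` the value `q(inf)` is the coefficient of degree `m N` of `aeval t q` (0 if `deg < m N`): compare monomials: `lc (t^e) = ∏ inf_i^(e_i)` if all
`deg t_i = m v_i` for `i` in the support of `e`, otherwise the monomial is `Lt (m N)` and the product is `0`; then add with `add_lt`, `add_eq` (or with `P.e.repr · (m N)`, which is linear, `repr_deg`, `lt_iff`; if `m N ∉ D` everything is `0`). -/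

namespace GB

open ES H68.BB Module

variable {K : Type} [Field K] [IsAlgClosed K] {s : ℕ} {W : Wm K s} {R : Type} [CommRing R] [Algebra K R] {P : OnePt K R} (C : Chart W P)

omit [IsAlgClosed K] in
private theorem ca_lt_mul (P : OnePt K R) {a b : ℕ} {f g : R} (hf : P.Lt (a + 1) f) (hg : P.Lt (b + 1) g) :
    P.Lt (a + b + 1) (f * g) := by
  rcases hf with hf | hf
  · left
    rw [hf, zero_mul]
  rcases hg with hg | hg
  · left
    rw [hg, mul_zero]
  by_cases hf0 : f = 0
  · left
    rw [hf0, zero_mul]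
  by_cases hg0 : g = 0
  · left
    rw [hg0, mul_zero]
  right
  rw [P.deg_mul hf0 hg0]
  omega

omit [IsAlgClosed K] in
private theorem ca_lt_one (P : OnePt K R) : P.Lt (0 + 1) 1 := by
  right
  rw [deg_one]
  exact Nat.one_pos

omit [IsAlgClosed K] in
private theorem ca_lt_pow (P : OnePt K R) {a : ℕ} {f : R} (hf : P.Lt (a + 1) f) (n : ℕ) :
    P.Lt (a * n + 1) (f ^ n) := by
  induction n with
  | zero =>
    rw [pow_zero, Nat.mul_zero]
    exact ca_lt_one P
  | succ n ih =>
    rw [pow_succ, Nat.mul_succ]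
    exact ca_lt_mul P ih hf

omit [IsAlgClosed K] in
private theorem ca_lt_prod (P : OnePt K R) {ι : Type} (S : Finset ι) (a : ι → ℕ) (f : ι → R)
    (h : ∀ i ∈ S, P.Lt (a i + 1) (f i)) : P.Lt (∑ i ∈ S, a i + 1) (∏ i ∈ S, f i) := by
  classical
  induction S using Finset.induction_on with
  | empty =>
    rw [Finset.sum_empty, Finset.prod_empty]
    exact ca_lt_one P
  | insert i S hi ih =>
    rw [Finset.sum_insert hi, Finset.prod_insert hi]
    exact ca_lt_mul P (h i (Finset.mem_insert_self i S))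
      (ih fun j hj => h j (Finset.mem_insert_of_mem hj))

omit [IsAlgClosed K] in
private theorem ca_lt_sum (P : OnePt K R) {ι : Type} (S : Finset ι) {d : ℕ} (f : ι → R)
    (h : ∀ i ∈ S, P.Lt (d + 1) (f i)) : P.Lt (d + 1) (∑ i ∈ S, f i) := by
  classical
  induction S using Finset.induction_on with
  | empty =>
    rw [Finset.sum_empty]
    exact Lt.zero P _
  | insert i S hi ih =>
    rw [Finset.sum_insert hi]
    exact Lt.add P (h i (Finset.mem_insert_self i S)) (ih fun j hj => h j (Finset.mem_insert_of_mem hj))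

/-- the coefficient of degree `d` of an element of degree at most `d` -/
private def ca_L (P : OnePt K R) (d : ℕ) (f : R) : K := if P.deg f = d then P.lc f else 0

omit [IsAlgClosed K] in
private theorem ca_L_zero (P : OnePt K R) (d : ℕ) : ca_L P d 0 = 0 := by
  unfold ca_L
  rw [P.lc_zero, ite_self]

omit [IsAlgClosed K] in
private theorem ca_L_of_lt (P : OnePt K R) {d : ℕ} {f : R} (h : P.Lt d f) : ca_L P d f = 0 := by
  rcases h with h | h
  · rw [h, ca_L_zero]
  · unfold ca_L
    rw [if_neg (by omega)]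

omit [IsAlgClosed K] in
private theorem ca_L_mul (P : OnePt K R) {a b : ℕ} {f g : R} (hf : P.Lt (a + 1) f) (hg : P.Lt (b + 1) g) :
    ca_L P (a + b) (f * g) = ca_L P a f * ca_L P b g := by
  by_cases hf0 : f = 0
  · rw [hf0, zero_mul, ca_L_zero, ca_L_zero, zero_mul]
  by_cases hg0 : g = 0
  · rw [hg0, mul_zero, ca_L_zero, ca_L_zero, mul_zero]
  have h1 : P.deg f < a + 1 := hf.resolve_left hf0
  have h2 : P.deg g < b + 1 := hg.resolve_left hg0
  have h3 := P.deg_mul hf0 hg0
  by_cases h4 : P.deg f = a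
  · by_cases h5 : P.deg g = b
    · unfold ca_L
      rw [if_pos (by omega), if_pos h4, if_pos h5, P.lc_mul]
    · unfold ca_L
      rw [if_neg (by omega), if_neg h5, mul_zero]
  · unfold ca_L
    rw [if_neg (by omega), if_neg h4, zero_mul]

omit [IsAlgClosed K] in
private theorem ca_L_add (P : OnePt K R) {d : ℕ} {f g : R} (hf : P.Lt (d + 1) f) (hg : P.Lt (d + 1) g) :
    ca_L P d (f + g) = ca_L P d f + ca_L P d g := by
  by_cases hf0 : f = 0
  · rw [hf0, zero_add, ca_L_zero, zero_add]
  by_cases hg0 : g = 0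
  · rw [hg0, add_zero, ca_L_zero, add_zero]
  have h1 : P.deg f < d + 1 := hf.resolve_left hf0
  have h2 : P.deg g < d + 1 := hg.resolve_left hg0
  by_cases h4 : P.deg f = d
  · by_cases h5 : P.deg g = d
    · by_cases h6 : P.lc f + P.lc g = 0
      · have h7 : ca_L P d (f + g) = 0 := by
          by_cases h8 : f = -g
          · rw [h8, neg_add_cancel, ca_L_zero]
          · have h9 := P.drop (f := f) (g := -g) (by rw [deg_neg, h4, h5])
              (by rw [lc_neg]; exact eq_neg_of_add_eq_zero_left h6) h8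
            rw [sub_neg_eq_add] at h9
            unfold ca_L
            rw [if_neg (by omega)]
        rw [h7]
        unfold ca_L
        rw [if_pos h4, if_pos h5, h6]
      · have h7 := add_eq P (h4.trans h5.symm) h6
        unfold ca_L
        rw [if_pos (h7.1.trans h4), if_pos h4, if_pos h5, h7.2]
    · have h6 : P.Lt (P.deg f) g := Or.inr (by omega)
      have h7 := add_lt P h6
      unfold ca_L
      rw [if_pos (h7.1.trans h4), if_pos h4, if_neg h5, h7.2, add_zero]
  · by_cases h5 : P.deg g = d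
    · have h6 : P.Lt (P.deg g) f := Or.inr (by omega)
      have h7 := add_lt P h6
      rw [add_comm f g]
      unfold ca_L
      rw [if_pos (h7.1.trans h5), if_neg h4, if_pos h5, h7.2, zero_add]
    · have h6 := deg_add P f g
      have h7 : P.deg (f + g) ≠ d := by
        intro h8
        rcases le_max_iff.1 h6 with h9 | h9 <;> omega
      unfold ca_L
      rw [if_neg h7, if_neg h4, if_neg h5, add_zero]

omit [IsAlgClosed K] in
private theorem ca_L_one (P : OnePt K R) : ca_L P 0 1 = 1 := by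
  unfold ca_L
  rw [deg_one, if_pos rfl, lc_one]

omit [IsAlgClosed K] in
private theorem ca_L_pow (P : OnePt K R) {a : ℕ} {f : R} (hf : P.Lt (a + 1) f) (n : ℕ) :
    ca_L P (a * n) (f ^ n) = ca_L P a f ^ n := by
  induction n with
  | zero => rw [pow_zero, pow_zero, Nat.mul_zero, ca_L_one]
  | succ n ih => rw [pow_succ, pow_succ, Nat.mul_succ, ca_L_mul P (ca_lt_pow P hf n) hf, ih]

omit [IsAlgClosed K] in
private theorem ca_L_prod (P : OnePt K R) {ι : Type} (S : Finset ι) (a : ι → ℕ) (f : ι → R)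
    (h : ∀ i ∈ S, P.Lt (a i + 1) (f i)) :
    ca_L P (∑ i ∈ S, a i) (∏ i ∈ S, f i) = ∏ i ∈ S, ca_L P (a i) (f i) := by
  classical
  induction S using Finset.induction_on with
  | empty =>
    rw [Finset.sum_empty, Finset.prod_empty, Finset.prod_empty, ca_L_one]
  | insert i S hi ih =>
    rw [Finset.sum_insert hi, Finset.prod_insert hi, Finset.prod_insert hi,
      ca_L_mul P (h i (Finset.mem_insert_self i S))
        (ca_lt_prod P S a f fun j hj => h j (Finset.mem_insert_of_mem hj)),
      ih fun j hj => h j (Finset.mem_insert_of_mem hj)]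

omit [IsAlgClosed K] in
private theorem ca_L_sum (P : OnePt K R) {ι : Type} (S : Finset ι) {d : ℕ} (f : ι → R)
    (h : ∀ i ∈ S, P.Lt (d + 1) (f i)) : ca_L P d (∑ i ∈ S, f i) = ∑ i ∈ S, ca_L P d (f i) := by
  classical
  induction S using Finset.induction_on with
  | empty =>
    rw [Finset.sum_empty, Finset.sum_empty, ca_L_zero]
  | insert i S hi ih =>
    rw [Finset.sum_insert hi, Finset.sum_insert hi, ca_L_add P (h i (Finset.mem_insert_self i S))
      (ca_lt_sum P S f fun j hj => h j (Finset.mem_insert_of_mem hj)),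
      ih fun j hj => h j (Finset.mem_insert_of_mem hj)]

omit [IsAlgClosed K] in
private theorem ca_L_const (P : OnePt K R) (c : K) : ca_L P 0 (algebraMap K R c) = c := by
  unfold ca_L
  rw [P.deg_const, if_pos rfl, P.lc_const]

omit [IsAlgClosed K] in
private theorem ca_lt_const (P : OnePt K R) (c : K) : P.Lt (0 + 1) (algebraMap K R c) := by
  right
  rw [P.deg_const]
  exact Nat.one_pos

omit [IsAlgClosed K] in
private theorem ca_wt {q : MvPolynomial (Fin s) K} {N : ℕ} {v : Fin s → ℕ}
    (hq : MvPolynomial.IsWeightedHomogeneous v q N) {d : Fin s →₀ ℕ} (hd : d ∈ q.support) :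
    ∑ i, v i * d i = N := by
  have h1 := hq (MvPolynomial.mem_support_iff.1 hd)
  rw [Finsupp.weight_apply, Finsupp.sum_fintype _ _ (fun i => by rw [zero_smul])] at h1
  rw [← h1]
  refine Finset.sum_congr rfl fun i _ => ?_
  rw [smul_eq_mul, mul_comm]

omit [IsAlgClosed K] in
private theorem ca_aeval {A : Type} [CommRing A] [Algebra K A] (t : Fin s → A) (q : MvPolynomial (Fin s) K) :
    MvPolynomial.aeval t q = ∑ d ∈ q.support, algebraMap K A (q.coeff d) * ∏ i, t i ^ d i := by
  rw [MvPolynomial.aeval_def, MvPolynomial.eval₂_eq']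

omit [IsAlgClosed K] in
private theorem ca_wm (m : ℕ) {q : MvPolynomial (Fin s) K} {N : ℕ} {v : Fin s → ℕ}
    (hq : MvPolynomial.IsWeightedHomogeneous v q N) {d : Fin s →₀ ℕ} (hd : d ∈ q.support) :
    0 + ∑ i, m * v i * d i = m * N := by
  rw [← ca_wt hq hd, Finset.mul_sum, zero_add]
  exact Finset.sum_congr rfl fun i _ => mul_assoc _ _ _

private theorem ca_mon (C : Chart W P) {q : MvPolynomial (Fin s) K} {N : ℕ}
    (hq : MvPolynomial.IsWeightedHomogeneous W.v q N) {d : Fin s →₀ ℕ} (hd : d ∈ q.support) :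
    P.Lt (C.m * N + 1) (algebraMap K R (q.coeff d) * ∏ i, C.t i ^ d i) := by
  rw [← ca_wm C.m hq hd]
  exact ca_lt_mul P (ca_lt_const P _) (ca_lt_prod P _ _ _ fun i _ => ca_lt_pow P (C.deg i) (d i))

private theorem ca_ev (C : Chart W P) {q : MvPolynomial (Fin s) K} {N : ℕ}
    (hq : MvPolynomial.IsWeightedHomogeneous W.v q N) :
    ev q C.inf = ca_L P (C.m * N) (MvPolynomial.aeval C.t q) := by
  unfold ev
  rw [ca_aeval, ca_aeval, ca_L_sum P _ _ fun d hd => ca_mon C hq hd]
  refine Finset.sum_congr rfl fun d hd => ?_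
  rw [← ca_wm C.m hq hd, ca_L_mul P (ca_lt_const P _)
    (ca_lt_prod P _ _ _ fun i _ => ca_lt_pow P (C.deg i) (d i)), ca_L_const,
    ca_L_prod P _ _ _ fun i _ => ca_lt_pow P (C.deg i) (d i)]
  congr 1
  refine Finset.prod_congr rfl fun i _ => ?_
  rw [ca_L_pow P (C.deg i)]
  rfl

private theorem ca_Q_mul (P : OnePt K R) {U : Multiset (R →ₐ[K] K)} {a b : ℕ} {f g : R}
    (hf : f ≠ 0 → a • U ≤ zk K f) (hg : g ≠ 0 → b • U ≤ zk K g) :
    f * g ≠ 0 → (a + b) • U ≤ zk K (f * g) := by
  intro h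
  have hf0 := left_ne_zero_of_mul h
  have hg0 := right_ne_zero_of_mul h
  rw [zk_mul P hf0 hg0, add_smul]
  exact add_le_add (hf hf0) (hg hg0)

private theorem ca_Q_zero {U : Multiset (R →ₐ[K] K)} (f : R) : f ≠ 0 → 0 • U ≤ zk K f := by
  intro _
  rw [zero_smul]
  exact Multiset.zero_le _

private theorem ca_Q_pow (P : OnePt K R) {U : Multiset (R →ₐ[K] K)} {a : ℕ} {f : R}
    (hf : f ≠ 0 → a • U ≤ zk K f) (n : ℕ) : f ^ n ≠ 0 → (a * n) • U ≤ zk K (f ^ n) := by
  induction n with
  | zero =>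
    rw [Nat.mul_zero]
    exact ca_Q_zero _
  | succ n ih =>
    rw [pow_succ, Nat.mul_succ]
    exact ca_Q_mul P ih hf

private theorem ca_Q_prod (P : OnePt K R) {U : Multiset (R →ₐ[K] K)} {ι : Type} (S : Finset ι)
    (a : ι → ℕ) (f : ι → R) (h : ∀ i ∈ S, f i ≠ 0 → a i • U ≤ zk K (f i)) :
    ∏ i ∈ S, f i ≠ 0 → (∑ i ∈ S, a i) • U ≤ zk K (∏ i ∈ S, f i) := by
  classical
  induction S using Finset.induction_on with
  | empty =>
    rw [Finset.sum_empty]
    exact ca_Q_zero _
  | insert i S hi ih =>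
    rw [Finset.sum_insert hi, Finset.prod_insert hi]
    exact ca_Q_mul P (h i (Finset.mem_insert_self i S)) (ih fun j hj => h j (Finset.mem_insert_of_mem hj))

private theorem ca_Q_add {U : Multiset (R →ₐ[K] K)} (hU : Reg K U) {N : ℕ} {f g : R}
    (hf : f ≠ 0 → N • U ≤ zk K f) (hg : g ≠ 0 → N • U ≤ zk K g) :
    f + g ≠ 0 → N • U ≤ zk K (f + g) := by
  classical
  intro h
  by_cases hf0 : f = 0
  · rw [hf0, zero_add] at h ⊢
    exact hg h
  by_cases hg0 : g = 0
  · rw [hg0, add_zero] at h ⊢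
    exact hf h
  have h1 := hf hf0
  have h2 := hg hg0
  rw [Multiset.le_iff_count]
  intro c
  by_cases hc : c ∈ U
  · have key : ∀ {M : Multiset (R →ₐ[K] K)}, N • U ≤ M →
        (Multiset.count c (N • U)) • ({c} : Multiset (R →ₐ[K] K)) ≤ M := by
      intro M hM
      rw [Multiset.nsmul_singleton]
      exact (Multiset.le_count_iff_replicate_le.1 le_rfl).trans hM
    have h3 := hU c hc f g hf0 hg0 h _ (key h1) (key h2)
    rw [Multiset.nsmul_singleton] at h3
    exact Multiset.le_count_iff_replicate_le.2 h3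
  · rw [Multiset.count_nsmul, Multiset.count_eq_zero_of_notMem hc, Nat.mul_zero]
    exact Nat.zero_le _

private theorem ca_Q_sum {U : Multiset (R →ₐ[K] K)} (hU : Reg K U) {N : ℕ} {ι : Type} (S : Finset ι)
    (f : ι → R) (h : ∀ i ∈ S, f i ≠ 0 → N • U ≤ zk K (f i)) :
    ∑ i ∈ S, f i ≠ 0 → N • U ≤ zk K (∑ i ∈ S, f i) := by
  classical
  induction S using Finset.induction_on with
  | empty =>
    rw [Finset.sum_empty]
    exact fun h => absurd rfl h
  | insert i S hi ih =>
    rw [Finset.sum_insert hi]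
    exact ca_Q_add hU (h i (Finset.mem_insert_self i S)) (ih fun j hj => h j (Finset.mem_insert_of_mem hj))

theorem ch_deg {q : MvPolynomial (Fin s) K} {N : ℕ} (hq : MvPolynomial.IsWeightedHomogeneous W.v q N) :
    P.Lt (C.m * N + 1) (MvPolynomial.aeval C.t q) := by
  rw [ca_aeval]
  exact ca_lt_sum P _ _ fun d hd => ca_mon C hq hd

theorem ch_ord {q : MvPolynomial (Fin s) K} {N : ℕ} (hq : MvPolynomial.IsWeightedHomogeneous W.v q N)
    (h0 : MvPolynomial.aeval C.t q ≠ 0) : N • C.U ≤ zk K (MvPolynomial.aeval C.t q) := by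
  rw [ca_aeval] at h0 ⊢
  refine ca_Q_sum C.reg _ _ (fun d hd => ?_) h0
  rw [← ca_wt hq hd, ← Nat.zero_add (∑ i, W.v i * d i)]
  exact ca_Q_mul P (ca_Q_zero _) (ca_Q_prod P _ _ _ fun i _ => ca_Q_pow P (C.ord i) (d i))

theorem ev_bp {F : Type} [Field F] [Algebra K F] (β : R →ₐ[K] F) (q : MvPolynomial (Fin s) K) :
    ev q (C.bp β) = β (MvPolynomial.aeval C.t q) := by
  exact (MvPolynomial.comp_aeval_apply C.t β q).symm

theorem onW_bp {F : Type} [Field F] [Algebra K F] {β : R →ₐ[K] F} {x y : F} (hz : C.bp β ≠ 0 ∨ x ≠ 0 ∨ y ≠ 0)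
    (h : y ^ 2 = x ^ 3 - 3 * β C.A * x - 2 * β C.B) : OnW W (⟨C.bp β, x, y⟩ : Pt s F) := by
  refine ⟨hz, fun f hf => ?_, ?_⟩
  · show ev f (C.bp β) = 0
    rw [ev_bp, C.I f hf, map_zero]
  · show y ^ 2 = x ^ 3 - 3 * ev W.a (C.bp β) * x - 2 * ev W.b (C.bp β)
    rw [ev_bp, ev_bp]
    exact h

theorem inf_ne : C.inf ≠ 0 := by
  intro h
  obtain ⟨i, hi0, hi⟩ := C.top
  have h1 := congrFun h i
  have h2 : C.inf i = P.lc (C.t i) := if_pos hi
  rw [h2] at h1
  exact P.lc_ne hi0 h1

theorem I_inf (hW : W.Ok) : ∀ f ∈ W.I, ev f C.inf = 0 := by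
  intro f hf
  obtain ⟨N, hN, hfN⟩ := hW.I f hf
  rw [ca_ev C hfN, C.I f hf, ca_L_zero]

/-- the value at infinity: if it is not zero, the degree is maximal -/
theorem ev_inf (hW : W.Ok) {q : MvPolynomial (Fin s) K} {N : ℕ} (hq : MvPolynomial.IsWeightedHomogeneous W.v q N) :
    (P.Lt (C.m * N) (MvPolynomial.aeval C.t q) → ev q C.inf = 0) ∧
      (P.deg (MvPolynomial.aeval C.t q) = C.m * N → 0 < N → ev q C.inf = P.lc (MvPolynomial.aeval C.t q)) := by
  rw [ca_ev C hq]
  refine ⟨fun h => ca_L_of_lt P h, fun h _ => ?_⟩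
  exact if_pos h

end GB
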