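import Pool.Agent.H99.GB.FLx
import Pool.Agent.H99.GB.ZrRd
import Pool.Agent.H99.GB.ZrG
import Pool.Agent.H34.ES.Fib

/-! # GC.Chart : a chart of the base curve of an elliptic surface (definitions only, no sorry)

`W` = a Weierstrass model over a base curve with weighted homogeneous coordinates `z_i` (`ES.Wm`), `P : OnePt K R` the ring of the functions on the base which are regular outside
one smooth point at infinity.  `t_i = z_i ρ^(v_i) ∈ R` where `ρ` is a rational section of `O(-1)`, regular outside infinity, with the zeros `U` (smooth points) and a pole of order `m` at infinity: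
`deg t_i ≤ m v_i`, `t_i` vanishes at least to the order `v_i U`, and `deg O(1) = m - card U`.  (For `ℙ¹`: `R = K[t]`, `t_0 = 1`, `t_1 = t`, `m = 1`, `U = ∅`.) -/

namespace GB

open ES H68.BB Module

variable {K : Type} [Field K] [IsAlgClosed K] {s : ℕ}

/-- a chart of the base curve of `W` -/
structure Chart (W : Wm K s) {R : Type} [CommRing R] [Algebra K R] (P : OnePt K R) where
  /-- the coordinates -/
  t : Fin s → R
  /-- the pole order of the frame at infinity -/
  m : ℕ
  /-- the zeros of the frame -/
  U : Multiset (R →ₐ[K] K)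
  mpos : 0 < m
  I : ∀ f ∈ W.I, MvPolynomial.aeval t f = 0
  deg : ∀ i, P.Lt (m * W.v i + 1) (t i)
  top : ∃ i, t i ≠ 0 ∧ P.deg (t i) = m * W.v i
  ord : ∀ i, t i ≠ 0 → W.v i • U ≤ zk K (t i)
  reg : Reg K U
  nz : ∀ b : R →ₐ[K] K, b ∉ U → ∃ i, b (t i) ≠ 0

variable {W : Wm K s} {R : Type} [CommRing R] [Algebra K R] {P : OnePt K R} (C : Chart W P)

/-- the coordinates of a point of the base -/
def Chart.bp {F : Type} [Field F] [Algebra K F] (β : R →ₐ[K] F) : Fin s → F := fun i => β (C.t i)

/-- the coordinates of the point at infinity -/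
def Chart.inf : Fin s → K := fun i => if P.deg (C.t i) = C.m * W.v i then P.lc (C.t i) else 0

/-- the coefficient `a` as a function on the base -/
noncomputable def Chart.A : R := MvPolynomial.aeval C.t W.a

/-- the coefficient `b` as a function on the base -/
noncomputable def Chart.B : R := MvPolynomial.aeval C.t W.b

/-- the degree of the fundamental line bundle `O(n)` -/
def Chart.n : ℕ := W.n * (C.m - C.U.card)

/-- the point of `W` lies over a point of the base outside `U`, or over infinity, or on the zero section -/
def Chart.In (Q : Pt s K) : Prop :=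
  Q.β = 0 ∨ (∃ c : K, c ≠ 0 ∧ ∃ b : R →ₐ[K] K, b ∉ C.U ∧ Q.β = fun i => c ^ W.v i * C.bp b i) ∨
    ∃ c : K, c ≠ 0 ∧ Q.β = fun i => c ^ W.v i * C.inf i

end GB
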