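import Pool.Agent.H67.ES.MdlSt
import Pool.Agent.H67.ES.StXX
import Pool.Agent.H67.ES.Top

/-! # GC.MdlB : model points over a multiset of labels (adapted from `H67/ES/MdlSt.lean` and `H67/ES/MdlOf.lean`)

A model point is given by `x, y, s, t, u, v` (the field `q` of `Mdl` is not used); the base points enter only through their labels `(a, b)`. -/

namespace GB

open ES Polynomial H68.BB H71.ES

/-- the equations of a model point over the labels `s` -/
structure OnB {F : Type} [Field F] (k : ℕ) (s : Multiset (F × F)) (m : Mdl F) : Prop where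
  card : s.card = k
  pal : Pal k m
  det : m.t ^ 2 + m.u * m.v - X * m.s ^ 2 = (s.map fun c => C (c.1 ^ 3) * (X + 1) ^ 2 - C (4 * c.2 ^ 2) * X).prod
  tm1 : m.t.eval (-1) = 2 ^ k * (s.map Prod.snd).prod
  eqy : m.y ^ 2 = m.x ^ 3 - 3 * (s.map Prod.fst).prod * m.x - 2 * m.t.coeff 0

section
variable {F : Type} [Field F]

private theorem m00 (k : ℕ) (m : Mdl F) : mdlM k m 0 0 =
    C ((-1 : F) ^ k) * (m.t.comp (X ^ 2) + X * m.s.comp (X ^ 2)) := by
  simp [mdlM]

private theorem m01 (k : ℕ) (m : Mdl F) : mdlM k m 0 1 =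
    C ((-1 : F) ^ k) * (-m.u.comp (X ^ 2)) := by
  simp [mdlM]

private theorem m10 (k : ℕ) (m : Mdl F) : mdlM k m 1 0 =
    C ((-1 : F) ^ k) * (m.v.comp (X ^ 2)) := by
  simp [mdlM]

private theorem m11 (k : ℕ) (m : Mdl F) : mdlM k m 1 1 =
    C ((-1 : F) ^ k) * (m.t.comp (X ^ 2) - X * m.s.comp (X ^ 2)) := by
  simp [mdlM]

private theorem sq1 (k : ℕ) : ((-1 : F) ^ k) * ((-1 : F) ^ k) = 1 := by
  rw [← mul_pow]; simp

/-- palindromic polynomials -/
private theorem pal_eval {p : F[X]} {d : ℕ} {e : F} (hd : p.natDegree ≤ d)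
    (hp : ∀ i ≤ d, p.coeff (d - i) = e * p.coeff i) {x : F} (hx : x ≠ 0) :
    x ^ d * p.eval x⁻¹ = e * p.eval x := by
  rw [eval_eq_sum_range' (Nat.lt_succ_of_le hd), eval_eq_sum_range' (Nat.lt_succ_of_le hd),
    Finset.mul_sum, Finset.mul_sum, ← Finset.sum_range_reflect]
  refine Finset.sum_congr rfl fun i hi => ?_
  have hi' : i ≤ d := Nat.lt_succ_iff.1 (Finset.mem_range.1 hi)
  have h1 : d + 1 - 1 - i = d - i := by omega
  rw [h1, hp i hi', inv_pow]
  have h2 : x ^ d = x ^ i * x ^ (d - i) := by rw [← pow_add]; congr 1; omega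
  rw [h2]
  field_simp

private theorem deg2 {p : F[X]} {d : ℕ} (hd : p.natDegree ≤ d) :
    (p.comp (X ^ 2)).natDegree ≤ 2 * d := by
  refine natDegree_comp_le.trans ?_
  rw [natDegree_X_pow, mul_comm]
  omega

private theorem degC {p : F[X]} {d : ℕ} {c : F} (hd : p.natDegree ≤ d) :
    (C c * p).natDegree ≤ d := (natDegree_C_mul_le _ _).trans hd

theorem mdlB_st [CharZero F] {k : ℕ} (hk : 0 < k) {s : Multiset (F × F)} {m : Mdl F} (h : OnB k s m) :
    St k s (mdlM k m) := by
  obtain ⟨hdt, hdu, hdv, hds, hpt, hpu, hpv, hps⟩ := h.pal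
  have hXs : (X * m.s.comp (X ^ 2)).natDegree ≤ 2 * k := by
    refine natDegree_mul_le.trans ?_
    have h1 := deg2 hds
    rw [natDegree_X]
    omega
  -- palindromic identities
  have et : ∀ x : F, x ≠ 0 → x ^ (2 * k) * m.t.eval ((x⁻¹) ^ 2) = (-1) ^ k * m.t.eval (x ^ 2) := by
    intro x hx
    have h1 := pal_eval hdt hpt (x := x ^ 2) (pow_ne_zero 2 hx)
    rw [← pow_mul, ← inv_pow] at h1
    exact h1
  have eu : ∀ x : F, x ≠ 0 → x ^ (2 * k) * m.u.eval ((x⁻¹) ^ 2) = -(-1) ^ k * m.u.eval (x ^ 2) := by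
    intro x hx
    have h1 := pal_eval hdu hpu (x := x ^ 2) (pow_ne_zero 2 hx)
    rw [← pow_mul, ← inv_pow] at h1
    exact h1
  have ev : ∀ x : F, x ≠ 0 → x ^ (2 * k) * m.v.eval ((x⁻¹) ^ 2) = -(-1) ^ k * m.v.eval (x ^ 2) := by
    intro x hx
    have h1 := pal_eval hdv hpv (x := x ^ 2) (pow_ne_zero 2 hx)
    rw [← pow_mul, ← inv_pow] at h1
    exact h1
  have es : ∀ x : F, x ≠ 0 → x ^ (2 * k) * (x⁻¹ * m.s.eval ((x⁻¹) ^ 2)) =
      (-1) ^ k * (x * m.s.eval (x ^ 2)) := by
    intro x hx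
    have h1 := pal_eval hds hps (x := x ^ 2) (pow_ne_zero 2 hx)
    rw [← pow_mul, ← inv_pow] at h1
    have h2 : x ^ (2 * k) = x ^ (2 * (k - 1)) * x * x := by
      rw [mul_assoc, ← sq, ← pow_add]; congr 1; omega
    rw [h2]
    have h3 : x ^ (2 * (k - 1)) * x * x * (x⁻¹ * m.s.eval ((x⁻¹) ^ 2)) =
        x * (x ^ (2 * (k - 1)) * m.s.eval ((x⁻¹) ^ 2)) := by
      field_simp
    rw [h3, h1]
    ring
  refine ⟨?_, ?_, ?_, ?_, ?_, ?_, ?_, ?_, ?_, ?_⟩
  · exact h.card
  · intro i j
    fin_cases i <;> fin_cases j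
    · show (mdlM k m 0 0).natDegree ≤ 2 * k
      rw [m00]
      exact degC (natDegree_add_le_of_degree_le (deg2 hdt) hXs)
    · show (mdlM k m 0 1).natDegree ≤ 2 * k
      rw [m01]
      exact degC (by rw [natDegree_neg]; exact deg2 hdu)
    · show (mdlM k m 1 0).natDegree ≤ 2 * k
      rw [m10]
      exact degC (deg2 hdv)
    · show (mdlM k m 1 1).natDegree ≤ 2 * k
      rw [m11]
      exact degC (natDegree_sub_le_of_le (deg2 hdt) hXs |>.trans (by simp))
  · intro x
    rw [m00, m11]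
    simp only [eval_mul, eval_C, eval_add, eval_sub, eval_comp, eval_pow, eval_X]
    rw [neg_sq]
    ring
  · intro x
    rw [m01]
    simp only [eval_mul, eval_C, eval_neg, eval_comp, eval_pow, eval_X]
    rw [neg_sq]
  · intro x
    rw [m10]
    simp only [eval_mul, eval_C, eval_comp, eval_pow, eval_X]
    rw [neg_sq]
  · intro x hx
    rw [m00]
    simp only [eval_mul, eval_C, eval_add, eval_comp, eval_pow, eval_X]
    have h1 := et x hx
    have h2 := es x hx
    linear_combination ((-1 : F) ^ k) * h1 + ((-1 : F) ^ k) * h2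
  · intro x hx
    rw [m01]
    simp only [eval_mul, eval_C, eval_neg, eval_comp, eval_pow, eval_X]
    have h1 := eu x hx
    linear_combination (-(-1 : F) ^ k) * h1
  · intro x hx
    rw [m10]
    simp only [eval_mul, eval_C, eval_comp, eval_pow, eval_X]
    have h1 := ev x hx
    linear_combination ((-1 : F) ^ k) * h1
  · rw [Matrix.det_fin_two, m00, m01, m10, m11]
    have h1 : C ((-1 : F) ^ k) * C ((-1 : F) ^ k) = (1 : F[X]) := by
      rw [← C_mul, sq1, C_1]
    have h2 : (m.t ^ 2 + m.u * m.v - X * m.s ^ 2).comp (X ^ 2) =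
        ((s.map fun c : F × F => C (c.1 ^ 3) * (X + 1) ^ 2 - C (4 * c.2 ^ 2) * X).prod).comp (X ^ 2) := by
      rw [h.det]
    rw [Polynomial.multiset_prod_comp, Multiset.map_map] at h2
    have h3 : (Multiset.map ((fun p => p.comp (X ^ 2 : F[X])) ∘ fun c : F × F =>
        C (c.1 ^ 3) * (X + 1) ^ 2 - C (4 * c.2 ^ 2) * X) s) =
        (Multiset.map (fun c : F × F => C (c.1 ^ 3) * (X ^ 2 + 1) ^ 2 - C (4 * c.2 ^ 2) * X ^ 2) s) := by
      refine Multiset.map_congr rfl fun r _ => ?_
      simp only [Function.comp_apply, sub_comp, mul_comp, pow_comp, add_comp, C_comp, X_comp, one_comp]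
    rw [← h3, ← h2]
    simp only [sub_comp, add_comp, mul_comp, pow_comp, X_comp]
    linear_combination (m.t.comp (X ^ 2) ^ 2 + m.u.comp (X ^ 2) * m.v.comp (X ^ 2)
      - X ^ 2 * m.s.comp (X ^ 2) ^ 2) * h1
  · intro i hi
    rw [m00]
    simp only [eval_mul, eval_C, eval_add, eval_comp, eval_pow, eval_X, hi]
    have hs0 : m.s.eval (-1) = 0 := by
      have h1 := pal_eval hds hps (x := (-1 : F)) (by simp)
      have h2 : ((-1 : F))⁻¹ = -1 := by norm_num
      rw [h2] at h1
      have h3 : ((-1 : F)) ^ k = -((-1) ^ (k - 1)) := by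
        obtain ⟨j, rfl⟩ : ∃ j, k = j + 1 := ⟨k - 1, by omega⟩
        rw [pow_succ]
        simp
      rw [h3] at h1
      have h4 : ((-1 : F) ^ (k - 1)) ≠ 0 := pow_ne_zero _ (by simp)
      have h5 : ((-1 : F) ^ (k - 1)) * (2 * m.s.eval (-1)) = 0 := by linear_combination h1
      rcases mul_eq_zero.1 h5 with h6 | h6
      · exact absurd h6 h4
      · rcases mul_eq_zero.1 h6 with h7 | h7
        · exact absurd h7 two_ne_zero
        · exact h7
    rw [hs0, h.tm1]
    have h2 : ((-2 : F)) ^ k = (-1) ^ k * 2 ^ k := by rw [← mul_pow]; norm_num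
    rw [h2]
    ring

/-- the leading coefficient -/
theorem mdlB_top {k : ℕ} (hk : 0 < k) {s : Multiset (F × F)} {m : Mdl F} (h : OnB k s m) :
    (mdlM k m 0 0).coeff (2 * k) = m.t.coeff 0 := by
  rw [m00, coeff_C_mul, coeff_add, ← expand_eq_comp_X_pow, ← expand_eq_comp_X_pow]
  have h1 : (X * (expand F 2) m.s).coeff (2 * k) = 0 := by
    obtain ⟨j, rfl⟩ : ∃ j, k = j + 1 := ⟨k - 1, by omega⟩
    have : 2 * (j + 1) = (2 * j + 1) + 1 := by ring
    rw [this, coeff_X_mul, coeff_expand (by norm_num), if_neg (by omega)]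
  rw [h1, add_zero, coeff_expand (by norm_num), if_pos (dvd_mul_right 2 k),
    Nat.mul_div_cancel_left k (by norm_num)]
  have h2 := h.pal.pt 0 (Nat.zero_le k)
  rw [Nat.sub_zero] at h2
  rw [h2, ← mul_assoc, sq1, one_mul]

end

section
variable {K : Type} [Field K] [IsAlgClosed K] [CharZero K]

omit [CharZero K] in
private theorem mo_pal {p : K[X]} {d : ℕ} {c : K} (hd : p.natDegree ≤ d)
    (h : ∀ x : K, x ≠ 0 → x ^ d * p.eval x⁻¹ = c * p.eval x) (i : ℕ) (hi : i ≤ d) :
    p.coeff (d - i) = c * p.coeff i := by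
  have h1 : reflect d p = C c * p := by
    apply eq_of_infinite_eval_eq
    refine Set.Infinite.mono (s := {x : K | x ≠ 0}) ?_ ?_
    · intro x hx
      have hx' : x ≠ 0 := hx
      have hx2 : x⁻¹ ≠ 0 := inv_ne_zero hx'
      let _ : Invertible x⁻¹ := invertibleOfNonzero hx2
      have h2 := eval₂_reflect_mul_pow (RingHom.id K) x⁻¹ d p hd
      have h3 : (⅟(x⁻¹) : K) = x := by rw [invOf_eq_inv, inv_inv]
      rw [h3] at h2
      change eval x (reflect d p) * x⁻¹ ^ d = eval x⁻¹ p at h2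
      show eval x (reflect d p) = eval x (C c * p)
      rw [eval_mul, eval_C, ← h x hx', ← h2, inv_pow]
      field_simp
    · exact (Set.finite_singleton (0 : K)).infinite_compl
  have h2 := congrArg (fun r => r.coeff i) h1
  simp only [coeff_reflect, coeff_C_mul] at h2
  rw [revAt_le hi] at h2
  exact h2

omit [CharZero K] in
private theorem mo_neg {p r : K[X]} (h : ∀ x : K, p.eval (-x) = r.eval x) (i : ℕ) :
    p.coeff i * (-1) ^ i = r.coeff i := by
  have h1 : p.comp (C (-1) * X) = r := by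
    apply Polynomial.funext
    intro x
    rw [eval_comp, eval_mul, eval_C, eval_X, neg_one_mul]
    exact h x
  rw [← h1, comp_C_mul_X_coeff]

omit [IsAlgClosed K] [CharZero K] in
private theorem mo_c2 (p : K[X]) (j : ℕ) : (contract 2 p).coeff j = p.coeff (2 * j) := by
  rw [coeff_contract two_ne_zero, mul_comm]

private theorem mo_even {p : K[X]} (h : ∀ x : K, p.eval (-x) = p.eval x) :
    (contract 2 p).comp (X ^ 2) = p := by
  rw [← expand_eq_comp_X_pow]
  ext i
  rw [coeff_expand (by norm_num)]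
  split_ifs with h1
  · obtain ⟨j, rfl⟩ := h1
    rw [Nat.mul_div_cancel_left j (by norm_num), mo_c2]
  · have h2 := mo_neg h i
    rw [Odd.neg_one_pow (Nat.not_even_iff_odd.mp fun h3 => h1 (even_iff_two_dvd.mp h3))] at h2
    have h3 : (2 : K) * p.coeff i = 0 := by linear_combination -h2
    rcases mul_eq_zero.mp h3 with h4 | h4
    · exact absurd h4 two_ne_zero
    · exact h4.symm

omit [IsAlgClosed K] [CharZero K] in
private theorem mo_split (p : K[X]) :
    (contract 2 p).comp (X ^ 2) + X * (contract 2 (divX p)).comp (X ^ 2) = p := by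
  rw [← expand_eq_comp_X_pow, ← expand_eq_comp_X_pow]
  ext i
  rw [coeff_add, coeff_expand (by norm_num)]
  rcases i with _ | i
  · rw [coeff_X_mul_zero, add_zero, if_pos (dvd_zero 2), Nat.zero_div, mo_c2]
  · rw [coeff_X_mul, coeff_expand (by norm_num)]
    by_cases h1 : 2 ∣ i
    · rw [if_pos h1, if_neg (by omega), zero_add]
      obtain ⟨j, rfl⟩ := h1
      rw [Nat.mul_div_cancel_left j (by norm_num), mo_c2, coeff_divX]
    · rw [if_neg h1, add_zero, if_pos (by omega)]
      obtain ⟨j, hj⟩ : ∃ j, i + 1 = 2 * j := ⟨(i + 1) / 2, by omega⟩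
      rw [hj, Nat.mul_div_cancel_left j (by norm_num), mo_c2]

private theorem mo_split' {p r : K[X]} (h : ∀ x : K, p.eval (-x) = r.eval x) :
    (contract 2 p).comp (X ^ 2) - X * (contract 2 (divX p)).comp (X ^ 2) = r := by
  apply Polynomial.funext
  intro x
  rw [← h x]
  conv_rhs => rw [← mo_split p]
  simp only [eval_sub, eval_add, eval_mul, eval_comp, eval_pow, eval_X]
  rw [neg_sq]
  ring

omit [IsAlgClosed K] [CharZero K] in
private theorem mo_sq (k : ℕ) : ((-1 : K) ^ k) * ((-1 : K) ^ k) = 1 := by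
  rw [← mul_pow]; simp

omit [IsAlgClosed K] [CharZero K] in
private theorem mo_tot (f : List (Vtx K)) :
    ((tot f).w * (tot f).v) ^ 2 = (f.map (Prod.fst ∘ Vtx.ab)).prod := by
  induction f with
  | nil => simp [tot]
  | cons g f ih =>
    have h3 : tot (g :: f) = ⟨g.w * (tot f).w, g.v * (tot f).v, g.w ^ 3 * (tot f).y + g.y * (tot f).v ^ 3⟩ := rfl
    rw [h3, List.map_cons, List.prod_cons, ← ih]
    show (g.w * (tot f).w * (g.v * (tot f).v)) ^ 2 = (g.w * g.v) ^ 2 * _
    ring

theorem mdlB_of {k : ℕ} (hk : 0 < k) {f : List (Vtx K)} (hl : f.length = k) {z : K} (hz : z ^ 3 = 1) :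
    ∃ m : Mdl K, m.q = 1 ∧ OnB k ((f.map Vtx.ab : List (K × K)) : Multiset (K × K)) m ∧ mdlM k m = XX f ∧
      m.x = z * (tot f).w ^ 2 + z ^ 2 * (tot f).v ^ 2 ∧ m.y = (tot f).y := by
  classical
  set M : Mat K := XX f with hM
  have hlen : f.length = k := hl
  have hst : St k ((f.map Vtx.ab : List (K × K)) : Multiset (K × K)) M := by
    have h := st_XX f
    rw [hlen] at h
    exact h
  set e : K := (-1) ^ k with he
  have hee : e * e = 1 := mo_sq k
  -- palindromic relations of the entries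
  have p00 := mo_pal (hst.deg 0 0) hst.r00
  have p01 := mo_pal (hst.deg 0 1) hst.r01
  have p10 := mo_pal (hst.deg 1 0) hst.r10
  set m : Mdl K := ⟨1,
    z * (tot f).w ^ 2 + z ^ 2 * (tot f).v ^ 2, (tot f).y,
    C e * contract 2 (divX (M 0 0)), C e * contract 2 (M 0 0), -(C e * contract 2 (M 0 1)),
    C e * contract 2 (M 1 0)⟩ with hm
  have ms : m.s = C e * contract 2 (divX (M 0 0)) := rfl
  have mt : m.t = C e * contract 2 (M 0 0) := rfl
  have mu : m.u = -(C e * contract 2 (M 0 1)) := rfl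
  have mv : m.v = C e * contract 2 (M 1 0) := rfl
  have cs : ∀ i, m.s.coeff i = e * (M 0 0).coeff (2 * i + 1) := by
    intro i
    rw [ms, coeff_C_mul, mo_c2, coeff_divX]
  have ct : ∀ i, m.t.coeff i = e * (M 0 0).coeff (2 * i) := by
    intro i
    rw [mt, coeff_C_mul, mo_c2]
  have cu : ∀ i, m.u.coeff i = -(e * (M 0 1).coeff (2 * i)) := by
    intro i
    rw [mu, coeff_neg, coeff_C_mul, mo_c2]
  have cv : ∀ i, m.v.coeff i = e * (M 1 0).coeff (2 * i) := by
    intro i
    rw [mv, coeff_C_mul, mo_c2]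
  have hpal : Pal k m := by
    refine ⟨?_, ?_, ?_, ?_, ?_, ?_, ?_, ?_⟩
    · rw [natDegree_le_iff_coeff_eq_zero]
      intro N hN
      rw [ct, coeff_eq_zero_of_natDegree_lt ((hst.deg 0 0).trans_lt (by omega)), mul_zero]
    · rw [natDegree_le_iff_coeff_eq_zero]
      intro N hN
      rw [cu, coeff_eq_zero_of_natDegree_lt ((hst.deg 0 1).trans_lt (by omega)), mul_zero, neg_zero]
    · rw [natDegree_le_iff_coeff_eq_zero]
      intro N hN
      rw [cv, coeff_eq_zero_of_natDegree_lt ((hst.deg 1 0).trans_lt (by omega)), mul_zero]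
    · rw [natDegree_le_iff_coeff_eq_zero]
      intro N hN
      rw [cs, coeff_eq_zero_of_natDegree_lt ((hst.deg 0 0).trans_lt (by omega)), mul_zero]
    · intro i hi
      rw [ct, ct, show 2 * (k - i) = 2 * k - 2 * i by omega, p00 (2 * i) (by omega)]
    · intro i hi
      rw [cu, cu, show 2 * (k - i) = 2 * k - 2 * i by omega, p01 (2 * i) (by omega)]
      ring
    · intro i hi
      rw [cv, cv, show 2 * (k - i) = 2 * k - 2 * i by omega, p10 (2 * i) (by omega)]
      ring
    · intro i hi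
      rw [cs, cs, show 2 * (k - 1 - i) + 1 = 2 * k - (2 * i + 1) by omega,
        p00 (2 * i + 1) (by omega)]
  have hCC : (C e * C e : K[X]) = 1 := by rw [← C_mul, hee, C_1]
  -- the entries of the matrix
  have e00 : C e * (m.t.comp (X ^ 2) + X * m.s.comp (X ^ 2)) = M 0 0 := by
    rw [mt, ms, mul_comp, mul_comp, C_comp]
    conv_rhs => rw [← mo_split (M 0 0)]
    linear_combination ((contract 2 (M 0 0)).comp (X ^ 2) +
      X * (contract 2 (divX (M 0 0))).comp (X ^ 2)) * hCC
  have e11 : C e * (m.t.comp (X ^ 2) - X * m.s.comp (X ^ 2)) = M 1 1 := by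
    rw [mt, ms, mul_comp, mul_comp, C_comp]
    have h := mo_split' hst.s00
    linear_combination ((contract 2 (M 0 0)).comp (X ^ 2) -
      X * (contract 2 (divX (M 0 0))).comp (X ^ 2)) * hCC + h
  have e01 : C e * (-m.u.comp (X ^ 2)) = M 0 1 := by
    rw [mu, neg_comp, mul_comp, C_comp]
    have h := mo_even hst.s01
    linear_combination ((contract 2 (M 0 1)).comp (X ^ 2)) * hCC + h
  have e10 : C e * (m.v.comp (X ^ 2)) = M 1 0 := by
    rw [mv, mul_comp, C_comp]
    have h := mo_even hst.s10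
    linear_combination ((contract 2 (M 1 0)).comp (X ^ 2)) * hCC + h
  have hmat : mdlM k m = M := by
    have h1 : mdlM k m = (C e) • !![m.t.comp (X ^ 2) + X * m.s.comp (X ^ 2), -m.u.comp (X ^ 2);
      m.v.comp (X ^ 2), m.t.comp (X ^ 2) - X * m.s.comp (X ^ 2)] := rfl
    rw [h1]
    ext1 i j
    fin_cases i <;> fin_cases j
    · simp only [Matrix.smul_apply, smul_eq_mul]
      exact e00
    · simp only [Matrix.smul_apply, smul_eq_mul]
      exact e01
    · simp only [Matrix.smul_apply, smul_eq_mul]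
      exact e10
    · simp only [Matrix.smul_apply, smul_eq_mul]
      exact e11
  have hdet : m.t ^ 2 + m.u * m.v - X * m.s ^ 2 =
      (((f.map Vtx.ab : List (K × K)) : Multiset (K × K)).map fun c => C (c.1 ^ 3) * (X + 1) ^ 2 - C (4 * c.2 ^ 2) * X).prod := by
    apply expand_injective (n := 2) (by norm_num)
    rw [expand_eq_comp_X_pow, expand_eq_comp_X_pow,
      Polynomial.multiset_prod_comp, Multiset.map_map]
    have h1 := hst.det
    rw [Matrix.det_fin_two, ← e00, ← e01, ← e10, ← e11] at h1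
    have h2 : (Multiset.map ((fun p => p.comp (X ^ 2 : K[X])) ∘ fun c : K × K =>
        C (c.1 ^ 3) * (X + 1) ^ 2 - C (4 * c.2 ^ 2) * X)
          ((f.map Vtx.ab : List (K × K)) : Multiset (K × K))) =
        (Multiset.map (fun c : K × K => C (c.1 ^ 3) * (X ^ 2 + 1) ^ 2 - C (4 * c.2 ^ 2) * X ^ 2)
          ((f.map Vtx.ab : List (K × K)) : Multiset (K × K))) := by
      refine Multiset.map_congr rfl fun r _ => ?_
      simp only [Function.comp_apply, sub_comp, mul_comp, pow_comp, add_comp, C_comp, X_comp, one_comp]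
    rw [h2, ← h1]
    simp only [sub_comp, add_comp, mul_comp, pow_comp, X_comp]
    linear_combination -(m.t.comp (X ^ 2) ^ 2 + m.u.comp (X ^ 2) * m.v.comp (X ^ 2)
      - X ^ 2 * m.s.comp (X ^ 2) ^ 2) * hCC
  have htm1 : m.t.eval (-1) = 2 ^ k * (((f.map Vtx.ab : List (K × K)) : Multiset (K × K)).map Prod.snd).prod := by
    obtain ⟨i, hi⟩ := IsAlgClosed.exists_pow_nat_eq (-1 : K) (n := 2) (by norm_num)
    have hi0 : i ≠ 0 := by
      rintro rfl
      norm_num at hi
    have h1 := hst.ev i hi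
    have h2 := hst.r00 i hi0
    have h3 : i⁻¹ = -i := inv_eq_of_mul_eq_one_right (by linear_combination -hi)
    have h4 : i ^ (2 * k) = e := by rw [pow_mul, hi]
    rw [h3, h4] at h2
    have h5 : (M 0 0).eval (-i) = (M 0 0).eval i := by
      have h6 : e ≠ 0 := by
        intro h6
        rw [h6, zero_mul] at hee
        exact zero_ne_one hee
      exact mul_left_cancel₀ h6 h2
    have h6 : (M 0 0).eval i = e * (m.t.eval (-1) + i * m.s.eval (-1)) := by
      rw [← e00]
      simp only [eval_mul, eval_C, eval_add, eval_comp, eval_pow, eval_X, hi]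
    have h7 : (M 0 0).eval (-i) = e * (m.t.eval (-1) + -i * m.s.eval (-1)) := by
      rw [← e00]
      simp only [eval_mul, eval_C, eval_add, eval_comp, eval_pow, eval_X, neg_sq, hi]
    have h9 : ((-2 : K)) ^ k = e * 2 ^ k := by rw [he, ← mul_pow]; norm_num
    rw [h9] at h1
    have h10 : (2 : K) * (m.t.eval (-1) - 2 ^ k *
        (((f.map Vtx.ab : List (K × K)) : Multiset (K × K)).map Prod.snd).prod) = 0 := by
      linear_combination (-2 * m.t.eval (-1) + 2 * 2 ^ k *
        (((f.map Vtx.ab : List (K × K)) : Multiset (K × K)).map Prod.snd).prod) * hee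
        - e * h6 - e * h7 + e * h5 + 2 * e * h1
    rcases mul_eq_zero.mp h10 with h11 | h11
    · exact absurd h11 two_ne_zero
    · exact sub_eq_zero.mp h11
  refine ⟨m, rfl, ⟨by rw [Multiset.coe_card, List.length_map, hl], hpal, hdet, htm1, ?_⟩, hmat, rfl, rfl⟩
  have ht0 : m.t.coeff 0 = ((tot f).w ^ 6 + (tot f).v ^ 6 -
      (tot f).y ^ 2) / 2 := by
    have h1 := (XX_top f).1
    rw [hlen] at h1
    rw [← h1, ct]
    have h2 := p00 0 (Nat.zero_le _)
    rw [Nat.sub_zero] at h2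
    exact h2.symm
  have hA : (((f.map Vtx.ab : List (K × K)) : Multiset (K × K)).map Prod.fst).prod = ((tot f).w * (tot f).v) ^ 2 := by
    rw [Multiset.map_coe, Multiset.prod_coe, List.map_map, mo_tot f]
  rw [hA, ht0]
  show (tot f).y ^ 2 = (z * (tot f).w ^ 2 + z ^ 2 * (tot f).v ^ 2) ^ 3 -
    3 * ((tot f).w * (tot f).v) ^ 2 *
      (z * (tot f).w ^ 2 + z ^ 2 * (tot f).v ^ 2) - _
  generalize (tot f).w = w
  generalize (tot f).v = v
  generalize (tot f).y = y
  have h2 : (2 : K) ≠ 0 := two_ne_zero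
  field_simp
  linear_combination (-(w ^ 6) - 3 * z * w ^ 4 * v ^ 2 - 3 * z ^ 2 * w ^ 2 * v ^ 4 - (z ^ 3 + 1) * v ^ 6) * hz


end

end GB
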