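import Pool.Agent.H99.GC.ChA
import Pool.Agent.H99.GC.MdlB
import Pool.Agent.H99.GB.NNx
import Pool.Agent.H99.GB.PenR
import Pool.Agent.H99.GB.Pole
import Pool.Agent.H71.EG.GCurve

/-! # GC.CurB : the curve theorem over the chart of a base curve: families of model points -/

namespace GB

open ES H68.BB Module Polynomial H71.ES H71.EG

/-- scale the torus-weighted coordinates of a model point -/
noncomputable def scM {F : Type} [Field F] (c : F) (m : Mdl F) : Mdl F :=
  ⟨m.q, c ^ 2 * m.x, c ^ 3 * m.y, C (c ^ 6) * m.s, C (c ^ 6) * m.t, C (c ^ 6) * m.u, C (c ^ 6) * m.v⟩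

section
variable {F : Type} [Field F]

private theorem cub_on {k : ℕ} {S : Multiset (F × F)} (hc : S.card = k) {r : ℕ} {K : Type} [Field K] [Algebra K F] {D : H71.EG.ND K r}
    {m : GM r F} (h : OnG D k m) {c : F} (hA : (S.map Prod.fst).prod = D.vA m.lam * c ^ 4) (hB : (S.map Prod.snd).prod = D.vB m.lam * c ^ 6)
    (hN : (S.map fun e => C (e.1 ^ 3) * (X + 1) ^ 2 - C (4 * e.2 ^ 2) * X).prod = D.vN m.lam * C (c ^ 12)) :
    OnB k S (scM c m.md) := by
  have hp := h.pal
  refine ⟨hc, ⟨?_, ?_, ?_, ?_, ?_, ?_, ?_, ?_⟩, ?_, ?_, ?_⟩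
  · exact (natDegree_C_mul_le _ _).trans hp.dt
  · exact (natDegree_C_mul_le _ _).trans hp.du
  · exact (natDegree_C_mul_le _ _).trans hp.dv
  · exact (natDegree_C_mul_le _ _).trans hp.ds
  · intro i hi
    change (C (c ^ 6) * m.md.t).coeff (k - i) = (-1) ^ k * (C (c ^ 6) * m.md.t).coeff i
    rw [coeff_C_mul, coeff_C_mul, hp.pt i hi]; ring
  · intro i hi
    change (C (c ^ 6) * m.md.u).coeff (k - i) = -(-1) ^ k * (C (c ^ 6) * m.md.u).coeff i
    rw [coeff_C_mul, coeff_C_mul, hp.pu i hi]; ring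
  · intro i hi
    change (C (c ^ 6) * m.md.v).coeff (k - i) = -(-1) ^ k * (C (c ^ 6) * m.md.v).coeff i
    rw [coeff_C_mul, coeff_C_mul, hp.pv i hi]; ring
  · intro i hi
    change (C (c ^ 6) * m.md.s).coeff (k - 1 - i) = (-1) ^ k * (C (c ^ 6) * m.md.s).coeff i
    rw [coeff_C_mul, coeff_C_mul, hp.ps i hi]; ring
  · have h1 := h.det
    unfold H71.EG.dfD at h1
    rw [hN]
    change (C (c ^ 6) * m.t) ^ 2 + (C (c ^ 6) * m.u) * (C (c ^ 6) * m.v) - X * (C (c ^ 6) * m.s) ^ 2 = _
    have h2 : D.vN m.lam = m.t ^ 2 + m.u * m.v - X * m.s ^ 2 := by linear_combination -h1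
    rw [h2]
    simp only [map_pow]
    ring
  · have h1 := h.tm1
    unfold H71.EG.dfT at h1
    change (C (c ^ 6) * m.t).eval (-1) = _
    rw [eval_mul, eval_C, hB]
    linear_combination (c ^ 6) * h1
  · have h1 := h.eqy
    unfold GM.rhs at h1
    change (c ^ 3 * m.y) ^ 2 = (c ^ 2 * m.x) ^ 3 - 3 * (S.map Prod.fst).prod * (c ^ 2 * m.x) - 2 * (C (c ^ 6) * m.t).coeff 0
    rw [coeff_C_mul, hA]
    linear_combination (c ^ 6) * h1

end

section
variable {K : Type} [Field K] {π : Place K (Om K)}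

private theorem rd_ms_prod {α : Type} (S : Multiset α) {f : α → Om K} (h : ∀ a ∈ S, Rd π.V π.φ (f a) 1) :
    Rd π.V π.φ (S.map f).prod 1 := by
  induction S using Multiset.induction_on with
  | empty => rw [Multiset.map_zero, Multiset.prod_zero]; exact Rd.one
  | cons a S ih =>
    rw [Multiset.map_cons, Multiset.prod_cons]
    have h1 := (h a (Multiset.mem_cons_self _ _)).mul (ih fun b hb => h b (Multiset.mem_cons_of_mem hb))
    rwa [one_mul] at h1

private theorem rd_fs_sum {ι : Type} (S : Finset ι) {f : ι → Om K} (h : ∀ a ∈ S, Rd π.V π.φ (f a) 0) :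
    Rd π.V π.φ (∑ a ∈ S, f a) 0 := by
  classical
  induction S using Finset.induction_on with
  | empty => rw [Finset.sum_empty]; exact Rd.zero
  | insert a S ha ih =>
    rw [Finset.sum_insert ha]
    have h1 := (h a (Finset.mem_insert_self _ _)).add (ih fun b hb => h b (Finset.mem_insert_of_mem hb))
    rwa [add_zero] at h1

end

variable {K : Type} [Field K] [IsAlgClosed K] [CharZero K] {s : ℕ} {W : Wm K s} {R : Type} [CommRing R] [Algebra K R] {P : OnePt K R} (C : Chart W P)

/-- the action of an automorphism on families -/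
noncomputable def galM (σ : Om K ≃ₐ[RatFunc K] Om K) (m : Multiset (R →ₐ[K] Om K) × Mdl (Om K)) : Multiset (R →ₐ[K] Om K) × Mdl (Om K) :=
  (m.1.map (fun β => ((σ.restrictScalars K : Om K ≃ₐ[K] Om K) : Om K →ₐ[K] Om K).comp β), m.2.map (σ : Om K →+* Om K))

theorem curveB (hW : W.Ok) (hab : ∀ c d : K, c • C.A ^ 3 = d • C.B ^ 2 → c = 0 ∧ d = 0) {k : ℕ} (hn : 0 < C.n) (hk : C.n + P.g ≤ k)
    {b : Fin k → (R →ₐ[K] K)} (hb : Function.Injective b) (ha0 : ∀ i, b i C.A ≠ 0) (hb0 : ∀ i, b i C.B ≠ 0) {m0 : Mdl K} (h1 : m0.q = 1)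
    (h0 : OnB k (Finset.univ.val.map fun i => (b i C.A, b i C.B)) m0) (hy : m0.y ≠ 0) {i j : ℕ} (huv : m0.u.coeff i * m0.v.coeff j ≠ 0) :
    ∃ (M : Multiset (Multiset (R →ₐ[K] Om K) × Mdl (Om K))) (π0 π1 : Place K (Om K)), M ≠ 0 ∧
      (∀ m ∈ M, m.2.q = 1 ∧ OnB k (m.1.map fun β => (β C.A, β C.B)) m.2) ∧
      (∀ σ : Om K ≃ₐ[RatFunc K] Om K, M.map (galM σ) = M) ∧
      (∀ m ∈ M, Multiset.Rel (RdP π0) m.1 (Finset.univ.val.map b) ∧ RdM π0 m.2 m0) ∧
      (∀ m ∈ M, (∃ β ∈ m.1, ∃ f, β f ∉ π1.V) ∨ ¬ Bdd π1 m.2) := by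
  classical
  have hdom := isDomain P
  have hA0 : C.A ≠ 0 := by
    intro h
    exact one_ne_zero (hab 1 0 (by rw [h]; simp)).1
  have hB0 : C.B ≠ 0 := by
    intro h
    exact one_ne_zero (hab 0 1 (by rw [h]; simp)).2
  obtain ⟨r, μ, hr, hli, hneg⟩ := poles P hb
  set E : Pen P k r := ⟨b, hb, μ, hli, hneg⟩ with hE
  set U : Multiset (R →ₐ[K] K) := W.n • C.U with hU
  have hUreg : Reg K U := by
    intro c hc
    rw [hU, Multiset.mem_nsmul] at hc
    exact C.reg c hc.2
  have hdA : P.deg C.A ≤ 4 * (W.n * C.m) := by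
    rcases ch_deg C hW.a with h | h
    · exact absurd h hA0
    · have h' : P.deg C.A < C.m * (4 * W.n) + 1 := h
      have : C.m * (4 * W.n) = 4 * (W.n * C.m) := by ring
      omega
  have hdB : P.deg C.B ≤ 6 * (W.n * C.m) := by
    rcases ch_deg C hW.b with h | h
    · exact absurd h hB0
    · have h' : P.deg C.B < C.m * (6 * W.n) + 1 := h
      have : C.m * (6 * W.n) = 6 * (W.n * C.m) := by ring
      omega
  have hUa : 4 • U ≤ zk K C.A := by
    have h := ch_ord C hW.a hA0
    rwa [mul_smul] at h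
  have hUb : 6 • U ≤ zk K C.B := by
    have h := ch_ord C hW.b hB0
    rwa [mul_smul] at h
  have hbU : ∀ i, E.b i ∉ U := by
    intro i hi
    rw [hU, Multiset.mem_nsmul] at hi
    have h2 : E.b i ∈ zk K C.A := by
      refine Multiset.mem_of_le hUa ?_
      rw [Multiset.mem_nsmul, hU, Multiset.mem_nsmul]
      exact ⟨by norm_num, hi⟩
    exact ha0 i ((mem_zk P hA0 _).1 h2)
  obtain ⟨N, hN, hval⟩ := exists_ND E hUreg hbU hab hdA hdB hUa hUb ha0 hb0
  have hcard : W.n * C.m - U.card = C.n := by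
    rw [hU, Multiset.card_nsmul]
    unfold Chart.n
    rw [Nat.mul_sub]
  rw [hcard] at hN
  -- the scaling factor
  set NU : MvPolynomial (Fin r) K := (U.map E.lin).prod with hNU
  have nu_eval : ∀ {F : Type} [Field F] [IsAlgClosed F] [Algebra K F] (lam : Fin r → F),
      MvPolynomial.aeval lam NU = (U.map fun c => 1 + ∑ j, lam j * algebraMap K F (E.val c j)).prod := by
    intro F _ _ _ lam
    rw [hNU, map_multiset_prod, Multiset.map_map]
    congr 1
    exact Multiset.map_congr rfl fun c _ => lin_eval E lam c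
  have nu0 : MvPolynomial.aeval (0 : Fin r → K) NU = 1 := by
    rw [nu_eval]
    simp
  -- the starting point
  set m0' : GM r K := ⟨0, m0.x, m0.y, m0.s, m0.t, m0.u, m0.v⟩ with hm0'
  have hS0 : E.S (0 : Fin r → K) = Finset.univ.val.map (fun i => cF K (E.b i)) := S_zero E
  have hcF : ∀ i f, cF K (E.b i) f = E.b i f := fun i f => rfl
  obtain ⟨hvA, hvB, hvN⟩ := hval K 0
  rw [hS0, Multiset.map_map, nu0, one_pow, mul_one] at hvA hvB
  rw [hS0, Multiset.map_map, nu0, one_pow, map_one, mul_one] at hvN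
  have hG0 : OnG N k m0' := by
    have hp := h0.pal
    refine ⟨⟨⟨hp.dt, hp.du, hp.dv, hp.ds, hp.pt, hp.pu, hp.pv, hp.ps⟩, ?_, ?_⟩, ?_⟩
    · have h2 := h0.det
      rw [Multiset.map_map] at h2
      have h3 : N.vN m0'.lam = m0.t ^ 2 + m0.u * m0.v - X * m0.s ^ 2 := by
        rw [h2]
        exact hvN.symm
      unfold H71.EG.dfD
      rw [h3]
      exact sub_self _
    · have h2 := h0.tm1
      rw [Multiset.map_map] at h2
      have h3 : N.vB m0'.lam = (Finset.univ.val.map fun i => b i C.B).prod := hvB.symm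
      unfold H71.EG.dfT
      rw [h3]
      exact sub_eq_zero.2 h2
    · have h2 := h0.eqy
      rw [Multiset.map_map] at h2
      have h3 : N.vA m0'.lam = (Finset.univ.val.map fun i => b i C.A).prod := hvA.symm
      unfold GM.rhs
      rw [h3]
      exact h2
  obtain ⟨c, γ, M, π0, π1, hc, hM0, hMon, hMg, hMr, hMb, hMp⟩ :=
    gcurve hN hn (by omega) (by omega) hG0 hy huv
  -- the transfer
  set nu : GM r (Om K) → Om K := fun m => MvPolynomial.aeval m.lam NU with hnu
  set Φ : GM r (Om K) → Multiset (R →ₐ[K] Om K) × Mdl (Om K) := fun m => (E.S m.lam, scM (nu m) m.md) with hΦ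
  refine ⟨M.map Φ, π0, π1, ?_, ?_, ?_, ?_, ?_⟩
  · rw [Ne, Multiset.map_eq_zero]
    exact hM0
  · intro m' hm'
    obtain ⟨m, hm, rfl⟩ := Multiset.mem_map.1 hm'
    refine ⟨rfl, ?_⟩
    obtain ⟨qA, qB, qN⟩ := hval (Om K) m.lam
    refine cub_on ?_ (hMon m hm) ?_ ?_ ?_
    · rw [Multiset.card_map]
      exact S_card E m.lam
    · rw [Multiset.map_map]
      exact qA
    · rw [Multiset.map_map]
      exact qB
    · rw [Multiset.map_map]
      exact qN
  · intro σ
    rw [Multiset.map_map]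
    have h2 : ∀ m ∈ M, (galM σ ∘ Φ) m = (Φ ∘ GM.map (σ : Om K →+* Om K)) m := by
      intro m _
      have e1 : (E.S m.lam).map (fun β => ((σ.restrictScalars K : Om K ≃ₐ[K] Om K) : Om K →ₐ[K] Om K).comp β) =
          E.S (fun j => σ (m.lam j)) := S_gal E (σ.restrictScalars K) m.lam
      have e2 : σ (nu m) = nu (m.map (σ : Om K →+* Om K)) := by
        change σ (MvPolynomial.aeval m.lam NU) = MvPolynomial.aeval (fun j => σ (m.lam j)) NU
        have h3 := MvPolynomial.comp_aeval_apply (f := m.lam) ((σ.restrictScalars K : Om K ≃ₐ[K] Om K) : Om K →ₐ[K] Om K) NU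
        exact h3
      refine Prod.ext e1 ?_
      change (scM (nu m) m.md).map (σ : Om K →+* Om K) = scM (nu (m.map (σ : Om K →+* Om K))) (m.map (σ : Om K →+* Om K)).md
      rw [← e2]
      unfold scM Mdl.map GM.map GM.md
      ext1
      · exact Polynomial.map_one _
      · simp
      · simp
      · simp
      · simp
      · simp
      · simp
    rw [Multiset.map_congr rfl h2, ← Multiset.map_map, hMg σ]
  · intro m' hm'
    obtain ⟨m, hm, rfl⟩ := Multiset.mem_map.1 hm'
    have hr := hMr m hm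
    refine ⟨S_rd E hr.lam, ?_⟩
    have hnu1 : Rd π0.V π0.φ (nu m) 1 := by
      change Rd π0.V π0.φ (MvPolynomial.aeval m.lam NU) 1
      rw [nu_eval]
      refine rd_ms_prod _ fun c _ => ?_
      have h2 : Rd π0.V π0.φ (∑ j, m.lam j * algebraMap K (Om K) (E.val c j)) 0 := by
        refine rd_fs_sum _ fun j _ => ?_
        have h3 := (hr.lam j).mul (π0.const (E.val c j))
        change Rd π0.V π0.φ _ (0 * _) at h3
        rwa [zero_mul] at h3
      have h3 := (Rd.one (V := π0.V) (φ := π0.φ)).add h2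
      rwa [add_zero] at h3
    have hpow : ∀ n : ℕ, Rd π0.V π0.φ (nu m ^ n) 1 := by
      intro n
      have h2 := hnu1.pow n
      rwa [one_pow] at h2
    have hmul : ∀ (n : ℕ) {x : Om K} {x' : K}, Rd π0.V π0.φ x x' → Rd π0.V π0.φ (nu m ^ n * x) x' := by
      intro n x x' hx
      have h2 := (hpow n).mul hx
      rwa [one_mul] at h2
    refine ⟨?_, hmul 2 hr.x, hmul 3 hr.y, ?_, ?_, ?_, ?_⟩
    · intro i
      rw [h1]
      change Rd π0.V π0.φ ((1 : (Om K)[X]).coeff i) ((1 : K[X]).coeff i)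
      rw [coeff_one, coeff_one]
      split_ifs
      · exact Rd.one
      · exact Rd.zero
    · intro i
      change Rd π0.V π0.φ ((Polynomial.C (nu m ^ 6) * m.s).coeff i) _
      rw [coeff_C_mul]
      exact hmul 6 (hr.s i)
    · intro i
      change Rd π0.V π0.φ ((Polynomial.C (nu m ^ 6) * m.t).coeff i) _
      rw [coeff_C_mul]
      exact hmul 6 (hr.t i)
    · intro i
      change Rd π0.V π0.φ ((Polynomial.C (nu m ^ 6) * m.u).coeff i) _
      rw [coeff_C_mul]
      exact hmul 6 (hr.u i)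
    · intro i
      change Rd π0.V π0.φ ((Polynomial.C (nu m ^ 6) * m.v).coeff i) _
      rw [coeff_C_mul]
      exact hmul 6 (hr.v i)
  · intro m' hm'
    obtain ⟨m, hm, rfl⟩ := Multiset.mem_map.1 hm'
    by_contra hcon
    push Not at hcon
    obtain ⟨hint, hbd⟩ := hcon
    obtain ⟨x, t, hx, hmx⟩ := hMp m hm
    -- the parameters are linear
    have hlam : m.lam = fun j => x * algebraMap K (Om K) ((c.lam j).coeff 1) := by
      funext j
      have e1 : m.lam j = aeval x (c.lam j) := by rw [hmx]; rfl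
      have e2 : (c.lam j).coeff 0 = 0 := by
        have h2 := congrArg (fun q : GM r K => q.lam j) hc.at0
        have h3 : (c.lam j).eval 0 = 0 := h2
        rwa [← coeff_zero_eq_eval_zero] at h3
      have e3 : c.lam j = Polynomial.C ((c.lam j).coeff 1) * X + Polynomial.C ((c.lam j).coeff 0) :=
        eq_X_add_C_of_natDegree_le_one (hc.dl j)
      rw [e1]
      conv_lhs => rw [e3, e2]
      rw [map_zero, add_zero, map_mul, aeval_C, aeval_X, mul_comm]
    by_cases hz : (fun j => (c.lam j).coeff 1) = 0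
    · have hl0 : m.lam = 0 := by
        rw [hlam]
        funext j
        have := congrFun hz j
        change x * algebraMap K (Om K) ((c.lam j).coeff 1) = 0
        rw [show (c.lam j).coeff 1 = 0 from this, map_zero, mul_zero]
      have hnu1 : nu m = 1 := by
        change MvPolynomial.aeval m.lam NU = 1
        rw [nu_eval, hl0]
        simp
      have hb2 : Bdd π1 (scM (nu m) m.md) := hbd
      rw [hnu1] at hb2
      refine hMb m hm ⟨?_, ?_, ?_, ?_, ?_, ?_⟩
      · intro j
        rw [hl0]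
        exact π1.V.zero_mem
      · have h2 := hb2.x
        change (1 : Om K) ^ 2 * m.x ∈ π1.V at h2
        rwa [one_pow, one_mul] at h2
      · have h2 := hb2.y
        change (1 : Om K) ^ 3 * m.y ∈ π1.V at h2
        rwa [one_pow, one_mul] at h2
      · intro j
        have h2 := hb2.s j
        change (Polynomial.C ((1 : Om K) ^ 6) * m.s).coeff j ∈ π1.V at h2
        rwa [one_pow, map_one, one_mul] at h2
      · intro j
        have h2 := hb2.t j
        change (Polynomial.C ((1 : Om K) ^ 6) * m.t).coeff j ∈ π1.V at h2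
        rwa [one_pow, map_one, one_mul] at h2
      · intro i' j'
        have h2 := hb2.uv i' j'
        change (Polynomial.C ((1 : Om K) ^ 6) * m.u).coeff i' * (Polynomial.C ((1 : Om K) ^ 6) * m.v).coeff j' ∈ π1.V at h2
        rwa [one_pow, map_one, one_mul, one_mul] at h2
    · obtain ⟨β, hβ, f, hf⟩ := S_unb E hz hx
      rw [← hlam] at hβ
      exact hf (hint β hβ f)

end GB
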