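import Pool.Agent.H99.GC.ChS

/-! # GC.Fam1 : the points of `W` on a curve `x = x1`, `y = l` (200 lines; compare `H34/ES/Fam1.lean`)

Choose `e ∈ R` with `D = deg e > deg l`, `2 D > deg A`, `2 D > deg B`, `D > 0` (`big`).  Over `Om K` put `τ = tt K`, `ξ = x1 - 1 + τ⁻²` (an element of `Om K`), `η = 1 ⊗ (l - e) + τ⁻³ ⊗ e`,
`S = η² - ξ³ ⊗ 1 + 3 ξ ⊗ A + 2 ⊗ B` in `Om K ⊗ R`, `M = (zr S).map (fun β => (bp β, ξ, evF β η))`.  `evF β S = 0` (`mem_zr`) is the equation of `W`; `NZ` because `ξ ≠ 0`.  Stability: `zr_gal` with `gal σ S = S` (`σ τ = τ`).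
`deg S = 2 D`: the leading term of `η` is `(τ⁻³ - 1) ⊗ e + 1 ⊗ l`, degree `D`, leading coefficient `(τ⁻³ - 1) lc e ≠ 0`.
At `π0` (`τ ↦ 0`, `two_places`): `(τ^6 ⊗ 1) * S` has the same zeros (`zr_mul`, a unit has no zeros) and reduces (`RdR`) to `e² - 1`, of the same degree `2 D`: by `zr_rd_eq` all `β` are integral, `ξ ∉ π0.V`, so `sp_o`: the limit is `o` (`sl_o`).
At `π1` (`τ ↦ 1`): `S` reduces to `S1 = l² - x1³ + 3 x1 A + 2 B ≠ 0`; `zr_rd`: `zr S = S' + T`; for `β ∈ S'`, `β → c ∈ zk S1`: `sp_int` (`NZ`: if `bp c = 0` then `c ∈ U` by `nz`, `c l ≠ 0`); for `β ∈ T` (there is `f` of positive degree by `big`)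
`sp_out` gives a point with class `0` (`sl_zero`, `sl_sing` with `hinf`).  `slot_eq`. -/

namespace GB

open ES H68.BB Module TensorProduct

open H67.KH (rd_cst sigma_cst sigma_tt)

variable {K : Type} [Field K] [IsAlgClosed K] [CharZero K] {s : ℕ} {W : Wm K s} {R : Type} [CommRing R] [Algebra K R] {P : OnePt K R} (C : Chart W P)

private theorem f1_rel {α β : Type} {r : α → β → Prop} {q : β → Prop} (S : Multiset α)
    (h : ∀ a ∈ S, ∃ b, r a b ∧ q b) : ∃ t : Multiset β, Multiset.Rel r S t ∧ ∀ b ∈ t, q b := by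
  induction S using Multiset.induction with
  | empty => exact ⟨0, Multiset.rel_zero_left.2 rfl, fun b hb => absurd hb (Multiset.notMem_zero b)⟩
  | cons a S ih =>
    obtain ⟨t, h1, h2⟩ := ih fun a' ha' => h a' (Multiset.mem_cons_of_mem ha')
    obtain ⟨b, h3, h4⟩ := h a (Multiset.mem_cons_self _ _)
    refine ⟨b ::ₘ t, h1.cons h3, fun b' hb' => ?_⟩
    rcases Multiset.mem_cons.1 hb' with rfl | hb'
    · exact h4
    · exact h2 b' hb'

omit [IsAlgClosed K] [CharZero K] in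
private theorem f1_lt {m : ℕ} {f : R} (hf : P.Lt m f) (c : Om K) : (P.bc (Om K)).Lt m (c ⊗ₜ[K] f) := by
  have e : c ⊗ₜ[K] f = c • ((1 : Om K) ⊗ₜ[K] f) := by
    rw [TensorProduct.smul_tmul', smul_eq_mul, mul_one]
  rw [e]
  refine Lt.smul (P.bc (Om K)) ?_ c
  rcases hf with rfl | hf
  · left
    rw [TensorProduct.tmul_zero]
  · right
    rw [bc_deg]
    exact hf

/-- the parameters -/
private structure Par (P : OnePt K R) (A B l e : R) : Prop where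
  pos : 0 < P.deg e
  l : P.Lt (P.deg e) l
  A : P.Lt (2 * P.deg e) A
  B : P.Lt (2 * P.deg e) B

omit [IsAlgClosed K] [CharZero K] in
private theorem f1_par (A B l : R) : ∃ e : R, Par P A B l e := by
  obtain ⟨N, hN⟩ := P.big
  obtain ⟨e, _, he⟩ := hN (N + P.deg A + P.deg B + P.deg l + 1) (by omega)
  exact ⟨e, by omega, Or.inr (by omega), Or.inr (by omega), Or.inr (by omega)⟩

/-- the function `y` -/
private noncomputable def eta (l e : R) (i3 : Om K) : Om K ⊗[K] R := (1 : Om K) ⊗ₜ[K] (l - e) + i3 ⊗ₜ[K] e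

/-- the equation -/
private noncomputable def SS (A B l e : R) (i3 xi : Om K) : Om K ⊗[K] R :=
  eta l e i3 ^ 2 - (xi ^ 3) ⊗ₜ[K] (1 : R) + (3 * xi) ⊗ₜ[K] A + (2 : Om K) ⊗ₜ[K] B

omit [IsAlgClosed K] [CharZero K] in
private theorem ev_eta (l e : R) (i3 : Om K) (β : R →ₐ[K] Om K) :
    evF β (eta l e i3) = β l - β e + i3 * β e := by
  unfold eta
  rw [map_add, evF_tmul, evF_tmul, one_mul, map_sub]

omit [IsAlgClosed K] [CharZero K] in
private theorem ev_SS (A B l e : R) (i3 xi : Om K) (β : R →ₐ[K] Om K) :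
    evF β (SS A B l e i3 xi) = evF β (eta l e i3) ^ 2 - xi ^ 3 + 3 * xi * β A + 2 * β B := by
  unfold SS
  rw [map_add, map_add, map_sub, map_pow, evF_tmul, evF_tmul, evF_tmul, map_one, mul_one]

omit [IsAlgClosed K] [CharZero K] in
private theorem deg_SS {A B l e : R} (h : Par P A B l e) {i3 : Om K} (h1 : i3 ≠ 1) (xi : Om K) :
    (P.bc (Om K)).deg (SS A B l e i3 xi) = 2 * P.deg e := by
  have he0 : e ≠ 0 := by
    rintro rfl
    have := h.pos
    rw [P.deg_zero] at this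
    exact lt_irrefl _ this
  have e1 : eta l e i3 = (i3 - 1) • ((1 : Om K) ⊗ₜ[K] e) + (1 : Om K) ⊗ₜ[K] l := by
    unfold eta
    rw [TensorProduct.smul_tmul', smul_eq_mul, mul_one, TensorProduct.tmul_sub, TensorProduct.sub_tmul]
    abel
  have hd1 : (P.bc (Om K)).deg ((i3 - 1) • ((1 : Om K) ⊗ₜ[K] e)) = P.deg e := by
    rw [deg_smul _ (sub_ne_zero.2 h1), bc_deg]
  have hd2 : (P.bc (Om K)).deg (eta l e i3) = P.deg e := by
    rw [e1]
    have h2 := (add_lt (P.bc (Om K)) (f := (i3 - 1) • ((1 : Om K) ⊗ₜ[K] e))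
      (g := (1 : Om K) ⊗ₜ[K] l) (by rw [hd1]; exact f1_lt h.l 1)).1
    rw [h2, hd1]
  have hη0 : eta l e i3 ≠ 0 := by
    intro h0
    rw [h0, (P.bc (Om K)).deg_zero] at hd2
    have := h.pos
    omega
  have hd3 : (P.bc (Om K)).deg (eta l e i3 ^ 2) = 2 * P.deg e := by
    rw [deg_pow _ hη0, hd2]
  have e2 : SS A B l e i3 xi = eta l e i3 ^ 2 +
      ((-(xi ^ 3)) ⊗ₜ[K] (1 : R) + (3 * xi) ⊗ₜ[K] A + (2 : Om K) ⊗ₜ[K] B) := by
    unfold SS
    rw [TensorProduct.neg_tmul]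
    ring
  have h1' : P.Lt (2 * P.deg e) 1 := by
    right
    rw [deg_one]
    have := h.pos
    omega
  rw [e2, (add_lt (P.bc (Om K)) (f := eta l e i3 ^ 2) ?_).1, hd3]
  rw [hd3]
  exact Lt.add _ (Lt.add _ (f1_lt h1' _) (f1_lt h.A _)) (f1_lt h.B _)

omit [IsAlgClosed K] [CharZero K] in
private theorem rd_sub' {π : Place K (Om K)} {x y : Om K ⊗[K] R} {x' y' : R} (hx : RdR π P x x')
    (hy : RdR π P y y') : RdR π P (x - y) (x' - y') := by
  rw [sub_eq_add_neg, sub_eq_add_neg]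
  exact hx.add hy.neg

omit [IsAlgClosed K] [CharZero K] in
private theorem rd_SS {π : Place K (Om K)} (A B l e : R) {i3 xi : Om K} {x1 : K}
    (h3 : Rd π.V π.φ i3 1) (hx : Rd π.V π.φ xi x1) :
    RdR π P (eta l e i3) l ∧ RdR π P (SS A B l e i3 xi)
      (l ^ 2 - algebraMap K R (x1 ^ 3) + (3 * x1) • A + (2 : K) • B) := by
  have hη : RdR π P (eta l e i3) l := by
    have h := (RdR.one_tmul (π := π) (P := P) (l - e)).add (RdR.tmul (P := P) h3 e)
    rw [one_smul, sub_add_cancel] at h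
    exact h
  refine ⟨hη, ?_⟩
  unfold SS
  rw [pow_two, pow_two, Algebra.algebraMap_eq_smul_one]
  exact ((rd_sub' (hη.mul hη) (RdR.tmul (hx.pow 3) 1)).add (RdR.tmul (Rd.three.mul hx) A)).add
    (RdR.tmul Rd.two B)

omit [IsAlgClosed K] [CharZero K] in
private theorem rd_SS0 {π : Place K (Om K)} (A B l e : R) {i3 xi τ3 τ6 y1 y4 : Om K}
    (e3 : τ3 * i3 = 1) (e6 : τ6 = τ3 ^ 2) (ex : τ6 * xi ^ 3 = y1) (e4 : τ6 * (3 * xi) = y4)
    (h3 : Rd π.V π.φ τ3 0) (h1 : Rd π.V π.φ y1 1) (h4 : Rd π.V π.φ y4 0)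
    (h2 : Rd π.V π.φ (τ6 * 2) 0) :
    RdR π P (τ6 ⊗ₜ[K] (1 : R) * SS A B l e i3 xi) (e ^ 2 - 1) := by
  have hη : RdR π P (τ3 ⊗ₜ[K] (l - e) + (1 : Om K) ⊗ₜ[K] e) e := by
    have h := (RdR.tmul (P := P) h3 (l - e)).add (RdR.one_tmul (π := π) (P := P) e)
    rw [zero_smul, zero_add] at h
    exact h
  have eS : τ6 ⊗ₜ[K] (1 : R) * SS A B l e i3 xi =
      (τ3 ⊗ₜ[K] (l - e) + (1 : Om K) ⊗ₜ[K] e) * (τ3 ⊗ₜ[K] (l - e) + (1 : Om K) ⊗ₜ[K] e) -
        y1 ⊗ₜ[K] (1 : R) + y4 ⊗ₜ[K] A + (τ6 * 2) ⊗ₜ[K] B := by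
    have e7 : τ3 ⊗ₜ[K] (l - e) + (1 : Om K) ⊗ₜ[K] e = τ3 ⊗ₜ[K] (1 : R) * eta l e i3 := by
      unfold eta
      rw [mul_add, Algebra.TensorProduct.tmul_mul_tmul, Algebra.TensorProduct.tmul_mul_tmul,
        mul_one, one_mul, one_mul, e3]
    have e8 : τ6 ⊗ₜ[K] (1 : R) = τ3 ⊗ₜ[K] (1 : R) * τ3 ⊗ₜ[K] (1 : R) := by
      rw [Algebra.TensorProduct.tmul_mul_tmul, one_mul, e6, pow_two]
    have e9 : ∀ (c : Om K) (f : R), τ6 ⊗ₜ[K] (1 : R) * c ⊗ₜ[K] f = (τ6 * c) ⊗ₜ[K] f := by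
      intro c f
      rw [Algebra.TensorProduct.tmul_mul_tmul, one_mul]
    rw [e7]
    unfold SS
    rw [mul_add, mul_add, mul_sub, e9, e9, e9, ex, e4, e8]
    ring
  rw [eS, pow_two e]
  have h := ((rd_sub' (hη.mul hη) (RdR.tmul (P := P) h1 1)).add (RdR.tmul h4 A)).add (RdR.tmul h2 B)
  rw [one_smul, zero_smul, zero_smul, add_zero, add_zero] at h
  exact h

omit [IsAlgClosed K] [CharZero K] in
private theorem gal_SS (A B l e : R) {i3 xi : Om K} (σ : Om K ≃ₐ[K] Om K) (h3 : σ i3 = i3)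
    (hx : σ xi = xi) : gal σ (SS A B l e i3 xi) = SS A B l e i3 xi := by
  have e1 : ∀ (c : Om K) (f : R), gal σ (c ⊗ₜ[K] f) = (σ c) ⊗ₜ[K] f := fun c f => rfl
  unfold SS eta
  rw [map_add, map_add, map_sub, map_pow, map_add, e1, e1, e1, e1, e1, map_one, h3, map_pow, hx,
    map_mul, hx, map_ofNat, map_ofNat]

omit [IsAlgClosed K] [CharZero K] in
private theorem zr_unit (P : OnePt K R) {c : Om K} (hc : c ≠ 0) {x : Om K ⊗[K] R} (hx : x ≠ 0) :
    zr (c ⊗ₜ[K] (1 : R) * x) = zr x ∧ c ⊗ₜ[K] (1 : R) * x ≠ 0 ∧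
      (P.bc (Om K)).deg (c ⊗ₜ[K] (1 : R) * x) = (P.bc (Om K)).deg x := by
  have hdom := isDomain (P.bc (Om K))
  have e : c ⊗ₜ[K] (1 : R) = algebraMap (Om K) (Om K ⊗[K] R) c := rfl
  have h1 : c ⊗ₜ[K] (1 : R) ≠ 0 := by
    rw [e]
    intro h0
    have h2 := (P.bc (Om K)).lc_const c
    rw [h0, (P.bc (Om K)).lc_zero] at h2
    exact hc h2.symm
  have hd : (P.bc (Om K)).deg (c ⊗ₜ[K] (1 : R)) = 0 := by
    rw [e]
    exact (P.bc (Om K)).deg_const c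
  have h0 : zr (c ⊗ₜ[K] (1 : R)) = 0 := by
    rw [← Multiset.card_eq_zero, zr_card P h1, hd]
  refine ⟨?_, mul_ne_zero h1 hx, ?_⟩
  · rw [zr_mul P h1 hx, h0, zero_add]
  · rw [(P.bc (Om K)).deg_mul h1 hx, hd, zero_add]

theorem fam1 (hW : W.Ok) (hinf : dd W C.inf = 0) {k : ℕ} {Q : Fin k → Pt s K} (hQ : ∀ j, OnW W (Q j)) (i : Fin k) (x1 : K) (l : R)
    (h0 : l ^ 2 - algebraMap K R (x1 ^ 3) + (3 * x1) • C.A + (2 : K) • C.B ≠ 0) (hl : ∀ c ∈ C.U, c l ≠ 0) :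
    ((zk K (l ^ 2 - algebraMap K R (x1 ^ 3) + (3 * x1) • C.A + (2 : K) • C.B)).map
      (fun c => sl W Q i ⟨C.bp c, x1, c l⟩)).sum = 0 := by
  classical
  obtain ⟨π1, π0, r1, n0, r0, r1'⟩ := two_places K
  set cs : K →+* Om K := algebraMap K (Om K) with hcs
  have hτ0 : tt K ≠ 0 := by
    intro h
    exact tt_ne K 0 (h.trans (map_zero (algebraMap K (Om K))).symm)
  have hττ : tt K * (tt K)⁻¹ = 1 := mul_inv_cancel₀ hτ0
  set τ : Om K := tt K with hτ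
  set iv : Om K := τ⁻¹ with hiv
  set xi : Om K := cs x1 - 1 + iv ^ 2 with hx
  obtain ⟨e, hpar⟩ := f1_par (P := P) C.A C.B l
  have hxV : xi ∉ π0.V := by
    intro h
    apply n0
    refine mem_of_pow (n := 2) (by norm_num) ?_
    have e1 : iv ^ 2 = xi - (cs x1 - 1) := by rw [hx]; ring
    rw [e1]
    exact sub_mem h (sub_mem (rd_cst π0 x1).mem π0.V.one_mem)
  have hx0 : xi ≠ 0 := by
    intro h
    apply hxV
    rw [h]
    exact π0.V.zero_mem
  have hi3 : iv ^ 3 ≠ 1 := by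
    intro h
    apply n0
    refine mem_of_pow (n := 3) (by norm_num) ?_
    rw [h]
    exact π0.V.one_mem
  have hdS := deg_SS hpar hi3 xi
  have hS0 : SS C.A C.B l e (iv ^ 3) xi ≠ 0 := by
    intro h
    rw [h, (P.bc (Om K)).deg_zero] at hdS
    have := hpar.pos
    omega
  set f : (R →ₐ[K] Om K) → Pt s (Om K) := fun β => ⟨C.bp β, xi, evF β (eta l e (iv ^ 3))⟩ with hf
  have hon : ∀ β ∈ zr (SS C.A C.B l e (iv ^ 3) xi), OnW W (f β) := by
    intro β hβ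
    rw [mem_zr P hS0, ev_SS] at hβ
    refine onW_bp C (Or.inr (Or.inl hx0)) ?_
    linear_combination hβ
  have hGal : ∀ σ : Om K ≃ₐ[RatFunc K] Om K,
      ((zr (SS C.A C.B l e (iv ^ 3) xi)).map f).map (Pt.map σ) =
        (zr (SS C.A C.B l e (iv ^ 3) xi)).map f := by
    intro σ
    have e1 : ∀ c : K, σ (cs c) = cs c := fun c => sigma_cst σ c
    have e2 : σ iv = iv := by
      rw [hiv, map_inv₀, hτ, sigma_tt]
    have e3 : σ xi = xi := by
      rw [hx, map_add, map_sub, map_one, e1, map_pow, e2]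
    have e4 : σ (iv ^ 3) = iv ^ 3 := by
      rw [map_pow, e2]
    have h2 := zr_gal P (σ.restrictScalars K) hS0
    rw [gal_SS C.A C.B l e (σ.restrictScalars K) e4 e3] at h2
    rw [Multiset.map_map]
    have h3 : Pt.map σ ∘ f = f ∘ fun β => ((σ.restrictScalars K : Om K ≃ₐ[K] Om K) : Om K →ₐ[K] Om K).comp β := by
      funext β
      refine Pt.ext rfl e3 ?_
      change σ (evF β (eta l e (iv ^ 3))) = evF (((σ.restrictScalars K : Om K ≃ₐ[K] Om K) :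
        Om K →ₐ[K] Om K).comp β) (eta l e (iv ^ 3))
      rw [ev_eta, ev_eta, map_add, map_sub, map_mul, e4]
      rfl
    rw [h3, ← Multiset.map_map, h2]
  -- the place `π1`
  have hx1 : Rd π1.V π1.φ xi x1 := by
    have h := ((rd_cst π1 x1).sub Rd.one).add (r1.pow 2)
    rwa [one_pow, sub_add_cancel] at h
  have hi1 : Rd π1.V π1.φ (iv ^ 3) 1 := by
    have h := r1.pow 3
    rwa [one_pow] at h
  obtain ⟨hη1, hS1⟩ := rd_SS (P := P) C.A C.B l e hi1 hx1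
  obtain ⟨S', T', hST, hrS, hrT⟩ := zr_rd P hS1 h0 hS0
  obtain ⟨g, hg⟩ : ∃ g : R, 0 < P.deg g := ⟨e, hpar.pos⟩
  obtain ⟨BT, hBT, hBT0⟩ := f1_rel (r := Sp W π1) (q := fun p => sl W Q i p = 0) (T'.map f) (by
    intro p hp
    obtain ⟨β, hβ, rfl⟩ := Multiset.mem_map.1 hp
    have hβS : β ∈ zr (SS C.A C.B l e (iv ^ 3) xi) := by
      rw [hST]
      exact Multiset.mem_add.2 (Or.inr hβ)
    obtain ⟨p, hp1, hp2, hp3⟩ := sp_out C hW (hrT β hβ g hg) (hon β hβS)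
    refine ⟨p, hp2, ?_⟩
    rcases hp3 with hp3 | hp3
    · exact sl_zero hW hQ i hp1 hp3
    · exact sl_sing hW hQ i hp1 (by rw [hp3]; exact hinf))
  have hrel1 : Multiset.Rel (Sp W π1) ((zr (SS C.A C.B l e (iv ^ 3) xi)).map f)
      ((zk K (l ^ 2 - algebraMap K R (x1 ^ 3) + (3 * x1) • C.A + (2 : K) • C.B)).map
        (fun c => (⟨C.bp c, x1, c l⟩ : Pt s K)) + BT) := by
    rw [hST, Multiset.map_add]
    refine Multiset.Rel.add ?_ hBT
    rw [Multiset.rel_map]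
    refine hrS.mono fun β _ c _ hβc => ?_
    refine sp_int C hβc hx1 (hη1.ev hβc) ?_
    by_cases hc : c ∈ C.U
    · exact Or.inr (Or.inr (hl c hc))
    · left
      obtain ⟨j, hj⟩ := C.nz c hc
      exact fun hb => hj (congrFun hb j)
  -- the place `π0`
  have hz3 : Rd π0.V π0.φ (τ ^ 3) 0 := by
    have := r0.pow 3
    rwa [zero_pow (by norm_num)] at this
  have hz2 : Rd π0.V π0.φ (τ ^ 2 * (cs x1 - 1) + 1) 1 := by
    have := ((r0.pow 2).mul ((rd_cst π0 x1).sub Rd.one)).add Rd.one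
    rwa [zero_pow (by norm_num), zero_mul, zero_add] at this
  have hz1 : Rd π0.V π0.φ ((τ ^ 2 * (cs x1 - 1) + 1) ^ 3) 1 := by
    have := hz2.pow 3
    rwa [one_pow] at this
  have hz4 : Rd π0.V π0.φ (τ ^ 4 * (3 * (τ ^ 2 * (cs x1 - 1) + 1))) 0 := by
    have := (r0.pow 4).mul (Rd.three.mul hz2)
    rwa [zero_pow (by norm_num), zero_mul] at this
  have hz6 : Rd π0.V π0.φ (τ ^ 6 * 2) 0 := by
    have := (r0.pow 6).mul (Rd.two (V := π0.V) (φ := π0.φ))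
    rwa [zero_pow (by norm_num), zero_mul] at this
  have q2 : τ ^ 2 * xi = τ ^ 2 * (cs x1 - 1) + 1 := by
    rw [hx]
    have : τ ^ 2 * iv ^ 2 = 1 := by rw [← mul_pow, hττ, one_pow]
    linear_combination this
  have hR0 := rd_SS0 (P := P) C.A C.B l e (i3 := iv ^ 3) (xi := xi) (τ3 := τ ^ 3) (τ6 := τ ^ 6)
    (y1 := (τ ^ 2 * (cs x1 - 1) + 1) ^ 3) (y4 := τ ^ 4 * (3 * (τ ^ 2 * (cs x1 - 1) + 1)))
    (by rw [← mul_pow, hττ, one_pow]) (by ring) (by rw [← q2]; ring) (by rw [← q2]; ring)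
    hz3 hz1 hz4 hz6
  obtain ⟨hu1, hu2, hu3⟩ := zr_unit P (pow_ne_zero 6 hτ0) hS0
  have hdom := isDomain P
  have he0 : e ≠ 0 := by
    rintro rfl
    have := hpar.pos
    rw [P.deg_zero] at this
    exact lt_irrefl _ this
  have hde : P.deg (e ^ 2 - 1) = 2 * P.deg e := by
    have hd2 : P.deg (e ^ 2) = 2 * P.deg e := deg_pow P he0 2
    rw [sub_eq_add_neg, (add_lt P (f := e ^ 2) ?_).1, hd2]
    right
    rw [deg_neg, deg_one, hd2]
    have := hpar.pos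
    omega
  have hne : e ^ 2 - 1 ≠ 0 := by
    intro h
    rw [h, P.deg_zero] at hde
    have := hpar.pos
    omega
  have hrel := zr_rd_eq P hR0 hne hu2 (by rw [hu3, hdS, hde])
  rw [hu1] at hrel
  have hrel0 : Multiset.Rel (Sp W π0) ((zr (SS C.A C.B l e (iv ^ 3) xi)).map f)
      ((zr (SS C.A C.B l e (iv ^ 3) xi)).map (fun _ => o s K)) := by
    rw [Multiset.rel_map]
    refine Multiset.rel_refl_of_refl_on fun β hβ => ?_
    refine sp_o C hW ?_ hxV (hon β hβ)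
    intro r
    obtain ⟨b, -, hb⟩ := Multiset.exists_mem_of_rel_of_mem hrel hβ
    exact (hb r).mem
  have h := slot_eq (W := W) hQ i (A := (zr (SS C.A C.B l e (iv ^ 3) xi)).map f) (π := π1) (π' := π0)
    (fun Q' hQ' => by
      obtain ⟨β, hβ, rfl⟩ := Multiset.mem_map.1 hQ'
      exact hon β hβ) hGal hrel1 hrel0
  rw [Multiset.map_add, Multiset.sum_add, Multiset.map_map, Multiset.map_map] at h
  have h1 : ((zr (SS C.A C.B l e (iv ^ 3) xi)).map (sl W Q i ∘ fun _ => o s K)).sum = 0 := by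
    apply Multiset.sum_eq_zero
    intro z hz
    obtain ⟨t, -, rfl⟩ := Multiset.mem_map.1 hz
    exact sl_o Q i
  have h2 : (BT.map (sl W Q i)).sum = 0 := by
    apply Multiset.sum_eq_zero
    intro z hz
    obtain ⟨t, ht, rfl⟩ := Multiset.mem_map.1 hz
    exact hBT0 t ht
  rw [h1, h2, add_zero] at h
  exact h

end GB
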