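import Pool.Agent.H99.GC.Ext
import Pool.Agent.H67.ES.Mdef

/-! # GC.Nest : from tuples over good base points to all tuples over the chart (150 lines; compare `H34/ES/NestT.lean`)

Induction on the number of slots which are not yet over good points, as in `NestT` (replace `![1, t j]` by `C.bp (b j)` and `ext_t` by `ext_b`).  A point `Q' ∈ In`: `Q'.β = 0`: `sl_zero`; over infinity: `dd W Q'.β = 0` (`ev_scale`), `sl_sing`; otherwise
`sl_smul` reduces to `⟨C.bp b, x, y⟩`.  Finiteness: the `b` with `b A = 0` or `b B = 0` or `b (B² - A³) = 0` or `(A b_j)³ (B b)² = (B b_j)² (A b)³` for some earlier `j`: zeros of nonzero elements of `R` (`hab`; `mem_zk`: the zeros of a nonzero element are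
finitely many, `Multiset.toFinset`); `lab W (bp b) = (b A, b B)` (`ev_bp`). -/

namespace GB

open ES H68.BB Module

variable {K : Type} [Field K] [IsAlgClosed K] [CharZero K] {s : ℕ} {W : Wm K s} {R : Type} [CommRing R] [Algebra K R] {P : OnePt K R} (C : Chart W P)

omit [CharZero K] in
private theorem gn_fin (hab : ∀ c d : K, c • C.A ^ 3 = d • C.B ^ 2 → c = 0 ∧ d = 0) {c d : K}
    (hcd : ¬ (c = 0 ∧ d = 0)) : {b : R →ₐ[K] K | d * b C.B ^ 2 = c * b C.A ^ 3}.Finite := by
  classical
  have h0 : c • C.A ^ 3 - d • C.B ^ 2 ≠ 0 := fun h => hcd (hab c d (sub_eq_zero.1 h))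
  refine (zk K (c • C.A ^ 3 - d • C.B ^ 2)).toFinset.finite_toSet.subset fun b hb => ?_
  rw [Finset.mem_coe, Multiset.mem_toFinset, mem_zk P h0]
  rw [map_sub, map_smul, map_smul, map_pow, map_pow, smul_eq_mul, smul_eq_mul]
  exact sub_eq_zero.2 (Eq.symm hb)

omit [IsAlgClosed K] [CharZero K] in
private theorem gn_upd {k : ℕ} {Q : Fin k → Pt s K} (hQ : ∀ j, OnW W (Q j)) (i : Fin k)
    {Q' : Pt s K} (hQ' : OnW W Q') : ∀ j, OnW W (Function.update Q i Q' j) := by
  intro j
  by_cases h : j = i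
  · subst h
    rw [Function.update_self]
    exact hQ'
  · rw [Function.update_of_ne h]
    exact hQ j

omit [CharZero K] in
private theorem gn_pt (P : OnePt K R) : Nonempty (R →ₐ[K] K) := by
  obtain ⟨N, hN⟩ := P.big
  obtain ⟨f, hf, hd⟩ := hN (N + 1) (Nat.le_succ N)
  have h1 : 0 < (zk K f).card := by
    rw [zk_card P hf, hd]
    exact Nat.succ_pos N
  obtain ⟨c, _⟩ := Multiset.card_pos_iff_exists_mem.1 h1
  exact ⟨c⟩

omit [IsAlgClosed K] [CharZero K] in
private theorem gn_dd (hW : W.Ok) {β : Fin s → K} (c : K) (h : dd W β = 0) :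
    dd W (fun i => c ^ W.v i * β i) = 0 := by
  unfold dd at h ⊢
  rw [ev_scale hW.a, ev_scale hW.b]
  have e1 : (c ^ (6 * W.n)) ^ 2 = c ^ (12 * W.n) := by
    rw [← pow_mul]
    congr 1
    ring
  have e2 : (c ^ (4 * W.n)) ^ 3 = c ^ (12 * W.n) := by
    rw [← pow_mul]
    congr 1
    ring
  rw [mul_pow, mul_pow, e1, e2, ← mul_sub, h, mul_zero]

omit [CharZero K] in
private theorem gn_U (hW : W.Ok) {b : R →ₐ[K] K} (hb : b ∈ C.U) : b C.A = 0 := by
  have h1 : C.bp b = 0 := by
    funext i
    change b (C.t i) = 0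
    by_cases hi : C.t i = 0
    · rw [hi, map_zero]
    · have h2 := C.ord i hi
      have h3 : b ∈ W.v i • C.U := by
        rw [Multiset.mem_nsmul]
        exact ⟨(hW.v i).ne', hb⟩
      exact (mem_zk P hi b).1 (Multiset.mem_of_le h2 h3)
  have h2 : ev W.a (C.bp b) = b C.A := ev_bp C b W.a
  have hn := hW.n
  rw [← h2, h1]
  exact ev_zero hW.a (by omega)

private theorem gn_claim (hW : W.Ok) (hinf : dd W C.inf = 0)
    (hab : ∀ c d : K, c • C.A ^ 3 = d • C.B ^ 2 → c = 0 ∧ d = 0) {k : ℕ}
    {B' : Type} [AddCommGroup B'] (hB : ∀ (N : ℕ) (z : B'), 0 < N → N • z = 0 → z = 0)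
    (h : AA k W →+ B')
    (hG : ∀ b : Fin k → (R →ₐ[K] K), (∀ j, ES.ND (lab W (C.bp (b j)))) →
      (∀ i j, i ≠ j → (lab W (C.bp (b i))).2 ^ 2 * (lab W (C.bp (b j))).1 ^ 3 ≠
        (lab W (C.bp (b j))).2 ^ 2 * (lab W (C.bp (b i))).1 ^ 3) →
      ∀ Q : Fin k → Pt s K, (∀ j, OnW W (Q j)) → (∀ j, (Q j).β = C.bp (b j)) → h (cls W Q) = 0)
    (m : ℕ) : m ≤ k → ∀ (Q : Fin k → Pt s K), (∀ j, OnW W (Q j)) → (∀ j, C.In (Q j)) →
      ∀ b : Fin k → (R →ₐ[K] K),
      (∀ j : Fin k, (j : ℕ) < k - m → (Q j).β = C.bp (b j)) →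
      (∀ j : Fin k, (j : ℕ) < k - m → ES.ND (lab W (C.bp (b j)))) →
      (∀ i j : Fin k, (i : ℕ) < k - m → (j : ℕ) < k - m → i ≠ j →
        (lab W (C.bp (b i))).2 ^ 2 * (lab W (C.bp (b j))).1 ^ 3 ≠
        (lab W (C.bp (b j))).2 ^ 2 * (lab W (C.bp (b i))).1 ^ 3) →
      h (cls W Q) = 0 := by
  induction m with
  | zero =>
    intro _ Q hQ _ b h1 h2 h3
    exact hG b (fun j => h2 j j.2) (fun i j hij => h3 i j i.2 j.2 hij) Q hQ (fun j => h1 j j.2)
  | succ m ih =>
    intro hm Q hQ hIn b h1 h2 h3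
    have hik : k - (m + 1) < k := by omega
    set i : Fin k := ⟨k - (m + 1), hik⟩ with hi
    have hiv : (i : ℕ) = k - (m + 1) := rfl
    have e : cls W Q = sl W Q i (Q i) := by
      unfold sl
      rw [Function.update_eq_self]
    rw [e]
    rcases hIn i with h0 | ⟨c, hc, b0, hb0, hβ⟩ | ⟨c, hc, hβ⟩
    · rw [sl_zero hW hQ i (hQ i) h0, map_zero]
    · have hc' : c⁻¹ ≠ 0 := inv_ne_zero hc
      have hβ' : ((Q i).smul W c⁻¹).β = C.bp b0 := by
        funext l
        change c⁻¹ ^ W.v l * (Q i).β l = C.bp b0 l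
        rw [hβ, ← mul_assoc, ← mul_pow, inv_mul_cancel₀ hc, one_pow, one_mul]
      have hOn := OnW_smul hW (hQ i) hc'
      have hpt : (Q i).smul W c⁻¹ = ⟨C.bp b0, ((Q i).smul W c⁻¹).x, ((Q i).smul W c⁻¹).y⟩ :=
        Pt.ext hβ' rfl rfl
      rw [← sl_smul hQ i (hQ i) hc', hpt]
      rw [hpt] at hOn
      refine ext_b C hW hinf hQ i hB h ?_ hOn
      have hb1 := gn_fin C hab (c := 1) (d := 0) (fun hh => one_ne_zero hh.1)
      have hb2 := gn_fin C hab (c := 0) (d := 1) (fun hh => one_ne_zero hh.2)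
      have hb3 := gn_fin C hab (c := 1) (d := 1) (fun hh => one_ne_zero hh.1)
      have hb4 : (⋃ j : {j : Fin k // (j : ℕ) < k - (m + 1)},
          {b' : R →ₐ[K] K | (b j.1 C.A) ^ 3 * b' C.B ^ 2 = (b j.1 C.B) ^ 2 * b' C.A ^ 3}).Finite := by
        refine Set.finite_iUnion fun j => gn_fin C hab (fun hh => ?_)
        have hnd : (lab W (C.bp (b j.1))).1 ≠ 0 := (h2 j.1 j.2).a
        change ev W.a (C.bp (b j.1)) ≠ 0 at hnd
        rw [ev_bp] at hnd
        exact pow_ne_zero 3 hnd hh.2
      refine (((hb1.union hb2).union hb3).union hb4).subset ?_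
      rintro b' ⟨x, y, hQ', hne⟩
      by_contra hbad
      apply hne
      simp only [Set.mem_union, not_or] at hbad
      obtain ⟨⟨⟨g1, g2⟩, g3⟩, g4⟩ := hbad
      have lab1 : ∀ b'' : R →ₐ[K] K, lab W (C.bp b'') = (b'' C.A, b'' C.B) := by
        intro b''
        unfold lab
        rw [ev_bp, ev_bp]
        rfl
      have ga : b' C.A ≠ 0 := by
        intro hz
        apply g1
        change 0 * b' C.B ^ 2 = 1 * b' C.A ^ 3
        rw [hz]
        ring
      have gb : b' C.B ≠ 0 := by
        intro hz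
        apply g2
        change 1 * b' C.B ^ 2 = 0 * b' C.A ^ 3
        rw [hz]
        ring
      have gd : b' C.B ^ 2 ≠ b' C.A ^ 3 := by
        intro hz
        apply g3
        change 1 * b' C.B ^ 2 = 1 * b' C.A ^ 3
        rw [one_mul, one_mul]
        exact hz
      have gj : ∀ j : Fin k, (j : ℕ) < k - (m + 1) →
          (b j C.A) ^ 3 * b' C.B ^ 2 ≠ (b j C.B) ^ 2 * b' C.A ^ 3 := by
        intro j hj hz
        apply g4
        exact Set.mem_iUnion.2 ⟨⟨j, hj⟩, hz⟩
      have hlt : ∀ j : Fin k, (j : ℕ) < k - m → j ≠ i → (j : ℕ) < k - (m + 1) := by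
        intro j hj hji
        have : (j : ℕ) ≠ k - (m + 1) := fun hh => hji (Fin.ext (hh.trans hiv.symm))
        omega
      unfold sl
      by_cases hU : b' ∈ C.U
      · exact absurd (gn_U C hW hU) ga
      · refine ih (by omega) _ (gn_upd hQ i hQ') ?_ (Function.update b i b') ?_ ?_ ?_
        · intro j
          by_cases hji : j = i
          · subst hji
            rw [Function.update_self]
            right; left
            refine ⟨1, one_ne_zero, b', hU, ?_⟩
            funext l
            rw [one_pow, one_mul]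
          · rw [Function.update_of_ne hji]
            exact hIn j
        · intro j hj
          by_cases hji : j = i
          · subst hji
            rw [Function.update_self, Function.update_self]
          · rw [Function.update_of_ne hji, Function.update_of_ne hji]
            exact h1 j (hlt j hj hji)
        · intro j hj
          by_cases hji : j = i
          · subst hji
            rw [Function.update_self, lab1]
            exact ⟨ga, gb, gd⟩
          · rw [Function.update_of_ne hji]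
            exact h2 j (hlt j hj hji)
        · intro i' j hi' hj hij
          by_cases hii : i' = i
          · have hji : j ≠ i := fun hh => hij (hii.trans hh.symm)
            rw [hii, Function.update_self, Function.update_of_ne hji, lab1, lab1]
            intro hz
            apply gj j (hlt j hj hji)
            rw [mul_comm]
            exact hz
          · by_cases hji : j = i
            · rw [hji, Function.update_self, Function.update_of_ne hii, lab1, lab1]
              intro hz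
              apply gj i' (hlt i' hi' hii)
              rw [mul_comm]
              exact hz.symm
            · rw [Function.update_of_ne hji, Function.update_of_ne hii]
              exact h3 i' j (hlt i' hi' hii) (hlt j hj hji) hij
    · rw [sl_sing hW hQ i (hQ i) (by rw [hβ]; exact gn_dd hW c hinf), map_zero]

theorem nest_b (hW : W.Ok) (hinf : dd W C.inf = 0) (hab : ∀ c d : K, c • C.A ^ 3 = d • C.B ^ 2 → c = 0 ∧ d = 0) {k : ℕ}
    {B' : Type} [AddCommGroup B'] (hB : ∀ (N : ℕ) (z : B'), 0 < N → N • z = 0 → z = 0) (h : AA k W →+ B')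
    (hG : ∀ b : Fin k → (R →ₐ[K] K), (∀ j, ES.ND (lab W (C.bp (b j)))) →
      (∀ i j, i ≠ j → (lab W (C.bp (b i))).2 ^ 2 * (lab W (C.bp (b j))).1 ^ 3 ≠ (lab W (C.bp (b j))).2 ^ 2 * (lab W (C.bp (b i))).1 ^ 3) →
      ∀ Q : Fin k → Pt s K, (∀ j, OnW W (Q j)) → (∀ j, (Q j).β = C.bp (b j)) → h (cls W Q) = 0)
    {Q : Fin k → Pt s K} (hQ : ∀ j, OnW W (Q j)) (hIn : ∀ j, C.In (Q j)) : h (cls W Q) = 0 := by
  obtain ⟨b0⟩ := gn_pt P
  exact gn_claim C hW hinf hab hB h hG k le_rfl Q hQ hIn (fun _ => b0)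
    (fun j hj => absurd hj (by omega)) (fun j hj => absurd hj (by omega))
    (fun i _ hi _ _ => absurd hi (by omega))

end GB
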