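import Pool.Agent.H99.GC.Nest
import Pool.Agent.H67.ES.ExtD

/-! # GC.NestK : as `nest_b`, with the additional genericity condition on the products of the `κ_j` -/

namespace GB

open ES H68.BB Module

variable {K : Type} [Field K] [IsAlgClosed K] [CharZero K] {s : ℕ} {W : Wm K s} {R : Type} [CommRing R] [Algebra K R] {P : OnePt K R} (C : Chart W P)

omit [CharZero K] in
private theorem nk_fin (hab : ∀ c d : K, c • C.A ^ 3 = d • C.B ^ 2 → c = 0 ∧ d = 0) {c d : K}
    (hcd : ¬ (c = 0 ∧ d = 0)) : {b : R →ₐ[K] K | d * b C.B ^ 2 = c * b C.A ^ 3}.Finite := by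
  classical
  have h0 : c • C.A ^ 3 - d • C.B ^ 2 ≠ 0 := fun h => hcd (hab c d (sub_eq_zero.1 h))
  refine (zk K (c • C.A ^ 3 - d • C.B ^ 2)).toFinset.finite_toSet.subset fun b hb => ?_
  rw [Finset.mem_coe, Multiset.mem_toFinset, mem_zk P h0]
  rw [map_sub, map_smul, map_smul, map_pow, map_pow, smul_eq_mul, smul_eq_mul]
  exact sub_eq_zero.2 (Eq.symm hb)

/-- the values of `κ` for a label with `a ≠ 0` -/
private theorem nk_kap {c : K × K} (hc : c.1 ≠ 0) : {x : K | Kap c x}.Finite := by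
  classical
  set p : Polynomial K := Polynomial.C (c.1 ^ 3) * (Polynomial.X + 1) ^ 2 - Polynomial.C (4 * c.2 ^ 2) * Polynomial.X with hp
  have hp0 : p ≠ 0 := by
    intro h0
    have h1 := congrArg (fun q : Polynomial K => q.eval 0) h0
    simp only [hp, Polynomial.eval_sub, Polynomial.eval_mul, Polynomial.eval_C, Polynomial.eval_pow, Polynomial.eval_add,
      Polynomial.eval_X, Polynomial.eval_one, Polynomial.eval_zero] at h1
    exact pow_ne_zero 3 hc (by linear_combination h1)
  refine (Polynomial.finite_setOf_isRoot hp0).subset fun x hx => ?_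
  show p.eval x = 0
  simp only [hp, Polynomial.eval_sub, Polynomial.eval_mul, Polynomial.eval_C, Polynomial.eval_pow, Polynomial.eval_add,
      Polynomial.eval_X, Polynomial.eval_one]
  have h2 := hx.2
  linear_combination h2

theorem nest_k (hW : W.Ok) (hinf : dd W C.inf = 0) (hab : ∀ c d : K, c • C.A ^ 3 = d • C.B ^ 2 → c = 0 ∧ d = 0) {k : ℕ} (hk : 0 < k)
    {B' : Type} [AddCommGroup B'] (hB : ∀ (N : ℕ) (z : B'), 0 < N → N • z = 0 → z = 0) (h : AA k W →+ B')
    (hG : ∀ b : Fin k → (R →ₐ[K] K), (∀ j, ES.ND (lab W (C.bp (b j)) : K × K)) →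
      (∀ i j, i ≠ j → Sep (lab W (C.bp (b i)) : K × K) (lab W (C.bp (b j)))) →
      (∀ κ : Fin k → K, (∀ j, Kap (lab W (C.bp (b j))) (κ j)) → ∏ j, κ j ≠ 1) →
      ∀ Q : Fin k → Pt s K, (∀ j, OnW W (Q j)) → (∀ j, (Q j).β = C.bp (b j)) → h (cls W Q) = 0)
    {Q : Fin k → Pt s K} (hQ : ∀ j, OnW W (Q j)) (hIn : ∀ j, C.In (Q j)) : h (cls W Q) = 0 := by
  classical
  refine nest_b C hW hinf hab hB h ?_ hQ hIn
  clear hQ hIn Q
  intro b hnd hsep Q hQ hQβ
  set i : Fin k := ⟨0, hk⟩ with hi
  have e : cls W Q = sl W Q i (Q i) := by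
    unfold sl
    rw [Function.update_eq_self]
  have hpt : Q i = ⟨C.bp (b i), (Q i).x, (Q i).y⟩ := Pt.ext (hQβ i) rfl rfl
  rw [e, hpt]
  have hOn := hQ i
  rw [hpt] at hOn
  refine ext_b C hW hinf hQ i hB h ?_ hOn
  have lab1 : ∀ b'' : R →ₐ[K] K, (lab W (C.bp b'') : K × K) = (b'' C.A, b'' C.B) := by
    intro b''
    unfold lab
    rw [ev_bp, ev_bp]
    rfl
  have hb1 := nk_fin C hab (c := 1) (d := 0) (fun hh => one_ne_zero hh.1)
  have hb2 := nk_fin C hab (c := 0) (d := 1) (fun hh => one_ne_zero hh.2)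
  have hb3 := nk_fin C hab (c := 1) (d := 1) (fun hh => one_ne_zero hh.1)
  have hb4 : (⋃ j : {j : Fin k // j ≠ i},
      {b' : R →ₐ[K] K | (b j.1 C.A) ^ 3 * b' C.B ^ 2 = (b j.1 C.B) ^ 2 * b' C.A ^ 3}).Finite := by
    refine Set.finite_iUnion fun j => nk_fin C hab (fun hh => ?_)
    have hnd' := (hnd j.1).a
    rw [lab1] at hnd'
    exact pow_ne_zero 3 hnd' hh.2
  -- the possible values of `κ_i`
  set T : Set K := {x : K | x ≠ 0 ∧ ∃ κ : Fin k → K, (∀ j, j ≠ i → Kap (lab W (C.bp (b j))) (κ j)) ∧ κ i = x ∧ ∏ j, κ j = 1} with hT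
  have hTfin : T.Finite := by
    have hpi : (Set.pi Set.univ fun j : Fin k => if j = i then ({1} : Set K) else {x : K | Kap (lab W (C.bp (b j))) x}).Finite := by
      refine Set.Finite.pi fun j => ?_
      split_ifs
      · exact Set.finite_singleton _
      · exact nk_kap (hnd j).a
    refine (hpi.image fun κ => (∏ j, κ j)⁻¹).subset ?_
    rintro x ⟨hx0, κ, h1, h2, h3⟩
    refine ⟨Function.update κ i 1, ?_, ?_⟩
    · rw [Set.mem_pi]
      intro j _
      by_cases hj : j = i
      · rw [if_pos hj, hj, Function.update_self]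
        exact Set.mem_singleton _
      · rw [if_neg hj, Function.update_of_ne hj]
        exact h1 j hj
    · show (∏ j, Function.update κ i 1 j)⁻¹ = x
      rw [Finset.prod_update_of_mem (Finset.mem_univ i), one_mul]
      have h4 : x * ∏ j ∈ Finset.univ \ {i}, κ j = 1 := by
        rw [← h3, ← h2, Finset.sdiff_singleton_eq_erase]
        exact Finset.mul_prod_erase _ _ (Finset.mem_univ i)
      exact inv_eq_of_mul_eq_one_left h4
  have hb5 : (⋃ x ∈ T, {b' : R →ₐ[K] K | (4 * x) * b' C.B ^ 2 = (x + 1) ^ 2 * b' C.A ^ 3}).Finite := by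
    refine hTfin.biUnion fun x hx => nk_fin C hab (fun hh => ?_)
    have h4 : (4 : K) * x ≠ 0 := mul_ne_zero (by norm_num) hx.1
    exact h4 hh.2
  refine ((((hb1.union hb2).union hb3).union hb4).union hb5).subset ?_
  rintro b' ⟨x, y, hQ', hne⟩
  by_contra hbad
  apply hne
  simp only [Set.mem_union, not_or] at hbad
  obtain ⟨⟨⟨⟨g1, g2⟩, g3⟩, g4⟩, g5⟩ := hbad
  have ga : b' C.A ≠ 0 := by
    intro hz
    apply g1
    change 0 * b' C.B ^ 2 = 1 * b' C.A ^ 3
    rw [hz]
    ring
  have gb : b' C.B ≠ 0 := by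
    intro hz
    apply g2
    change 1 * b' C.B ^ 2 = 0 * b' C.A ^ 3
    rw [hz]
    ring
  have gd : b' C.B ^ 2 ≠ b' C.A ^ 3 := by
    intro hz
    apply g3
    change 1 * b' C.B ^ 2 = 1 * b' C.A ^ 3
    rw [one_mul, one_mul]
    exact hz
  have gj : ∀ j : Fin k, j ≠ i → (b j C.A) ^ 3 * b' C.B ^ 2 ≠ (b j C.B) ^ 2 * b' C.A ^ 3 := by
    intro j hj hz
    apply g4
    exact Set.mem_iUnion.2 ⟨⟨j, hj⟩, hz⟩
  unfold sl
  refine hG (Function.update b i b') ?_ ?_ ?_ _ ?_ ?_
  · intro j
    by_cases hji : j = i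
    · rw [hji, Function.update_self, lab1]
      exact ⟨ga, gb, gd⟩
    · rw [Function.update_of_ne hji]
      exact hnd j
  · intro i' j hij
    unfold ES.Sep
    by_cases hii : i' = i
    · have hji : j ≠ i := fun hh => hij (hii.trans hh.symm)
      rw [hii, Function.update_self, Function.update_of_ne hji, lab1, lab1]
      intro hz
      apply gj j hji
      rw [mul_comm]
      exact hz
    · by_cases hji : j = i
      · rw [hji, Function.update_self, Function.update_of_ne hii, lab1, lab1]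
        intro hz
        apply gj i' hii
        rw [mul_comm]
        exact hz.symm
      · rw [Function.update_of_ne hji, Function.update_of_ne hii]
        exact hsep i' j hij
  · intro κ hκ hprod
    apply g5
    have h1 := hκ i
    rw [Function.update_self, lab1] at h1
    rw [Set.mem_iUnion₂]
    refine ⟨κ i, ⟨h1.1, κ, fun j hj => ?_, rfl, hprod⟩, ?_⟩
    · have h2 := hκ j
      rwa [Function.update_of_ne hj] at h2
    · have h2 := h1.2
      show (4 * κ i) * b' C.B ^ 2 = (κ i + 1) ^ 2 * b' C.A ^ 3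
      linear_combination -h2
  · intro j
    by_cases hji : j = i
    · rw [hji, Function.update_self]
      exact hQ'
    · rw [Function.update_of_ne hji]
      exact hQ j
  · intro j
    by_cases hji : j = i
    · rw [hji, Function.update_self, Function.update_self]
    · rw [Function.update_of_ne hji, Function.update_of_ne hji]
      exact hQβ j

end GB
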